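import Mathlib

/-!
# A comparison principle (helper23)
-/

namespace Pool.Agent.helper23.HT

open Finset

theorem compare {n : ℕ} {G U : ℕ → ℝ} {α β γ : ℝ} (hα : 0 ≤ α) (hβ : 0 ≤ β) (hab : α + β < 1)
    (h0 : G 0 ≤ U 0) (h1 : G (n + 1) ≤ U (n + 1))
    (hG : ∀ k, k < n → G (k + 1) ≤ α * G k + β * G (k + 2) + γ)
    (hU : ∀ k, k < n → α * U k + β * U (k + 2) + γ ≤ U (k + 1)) :
    ∀ k, k ≤ n + 1 → G k ≤ U k := by
  obtain ⟨m, hm, hmax⟩ := exists_max_image (range (n + 2)) (fun j => G j - U j) ⟨0, by simp⟩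
  have hmax' : ∀ j, j ≤ n + 1 → G j - U j ≤ G m - U m := fun j hj => hmax j (by simp; omega)
  rw [mem_range] at hm
  suffices h : G m - U m ≤ 0 by
    intro k hk
    have := hmax' k hk
    linarith
  rcases Nat.eq_zero_or_pos m with rfl | hm0
  · linarith
  rcases Nat.lt_or_ge n m with hmn | hmn
  · have : m = n + 1 := by omega
    subst this
    linarith
  obtain ⟨j, rfl⟩ : ∃ j, m = j + 1 := ⟨m - 1, by omega⟩
  have a1 := hG j (by omega)
  have a2 := hU j (by omega)
  have b1 := hmax' j (by omega)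
  have b2 := hmax' (j + 2) (by omega)
  by_contra hcon
  push Not at hcon
  have c1 := mul_le_mul_of_nonneg_left b1 hα
  have c2 := mul_le_mul_of_nonneg_left b2 hβ
  have c3 : (α + β) * (G (j + 1) - U (j + 1)) < 1 * (G (j + 1) - U (j + 1)) :=
    mul_lt_mul_of_pos_right hab hcon
  nlinarith

end Pool.Agent.helper23.HT
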