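import Pool.Agent.helper23.HT.Basic

/-!
# The beginning of the orbit (module HT-Start)

`z 1 = a - z 0 ^ 2 + b z n` (`eqn n`, `per`, `per1`), so `|z 1 - 2| ≤ 11/10 r^2`.
`z 2 + 2 = (a - 2) - (z 1 - 2)(z 1 + 2) + b z 0`, so `|z 2 + 2| ≤ 5 r^2`; for `k ≥ 2`
`z (k+1) + 2 = (a - 2) - (z k + 2)(z k - 2) + b z (k-1)`, so
`|z k + 2| ≤ 5^(k-1) r^2 ≤ 1/10` for `2 ≤ k ≤ 16` (`r^2 ≤ 10^(-14)`).
n_large: otherwise `n + 1 ≤ 16` and `|z (n+1)| = |z 0| ≤ r`, but `|z k| ≥ 19/10` for `1 ≤ k ≤ 16`.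
wt_one: `wt^2 ≤ (r^2/8 + 11/10 r^2) * (41/10) ≤ (23/10 r)^2`.
wt_zero: `wt r (z 0) ≥ sqrt (4 - r^2) ≥ 19/10`.
-/

namespace Pool.Agent.helper23.HT

open Pool.Agent.helper23.HS

theorem r_sq_le {a b r : ℝ} (h : Par a b r) : r ^ 2 ≤ 1 / 10 ^ 14 := by
  have h1 := h.r0
  have h2 := h.r1
  calc r ^ 2 ≤ (1 / 10 ^ 7) ^ 2 := pow_le_pow_left₀ h1.le h2 2
    _ = 1 / 10 ^ 14 := by norm_num

theorem z_one {a b r : ℝ} {n : ℕ} {z : ℕ → ℝ} (ht : Thin a b r n z) :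
    |z 1 - 2| ≤ 11 / 10 * r ^ 2 := by
  have hr2 := r_sq_le ht.par
  have hr0 : 0 ≤ r ^ 2 := sq_nonneg r
  have h1 := ht.orb.eqn n
  rw [ht.orb.per, ht.orb.per1] at h1
  have hb := bound ht.par ht.orb n
  have ha := abs_le.1 ht.par.ha
  have h0 : z 0 ^ 2 ≤ r ^ 2 := by
    have := abs_le.1 ht.small
    nlinarith [this.1, this.2]
  have h0' : 0 ≤ z 0 ^ 2 := sq_nonneg _
  have hbz : |b * z n| ≤ r ^ 2 / 1000 * (21 / 10) := by
    rw [abs_mul, abs_of_pos ht.par.b0]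
    have : |z n| ≤ 21 / 10 := by linarith
    exact mul_le_mul ht.par.b1 this (abs_nonneg _) (by positivity)
  have hbz' := abs_le.1 hbz
  rw [abs_le]
  constructor <;> linarith [hbz'.1, hbz'.2, ha.1, ha.2]

theorem z_two {a b r : ℝ} {n : ℕ} {z : ℕ → ℝ} (ht : Thin a b r n z) :
    |z 2 + 2| ≤ 5 * r ^ 2 := by
  have hr2 := r_sq_le ht.par
  have hr0 : 0 ≤ r ^ 2 := sq_nonneg r
  have h1 := ht.orb.eqn 0
  have hz1 := z_one ht
  have ha := ht.par.ha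
  have hs : z 2 + 2 = (a - 2) - (z 1 - 2) * (z 1 + 2) + b * z 0 := by
    simp only [Nat.zero_add] at h1
    linear_combination h1
  have hz1' := abs_le.1 hz1
  have hp : |z 1 + 2| ≤ 401 / 100 := by
    rw [abs_le]
    constructor <;> linarith [hz1'.1, hz1'.2]
  have hm : |(z 1 - 2) * (z 1 + 2)| ≤ 11 / 10 * r ^ 2 * (401 / 100) := by
    rw [abs_mul]
    exact mul_le_mul hz1 hp (abs_nonneg _) (by positivity)
  have hbz : |b * z 0| ≤ r ^ 2 / 1000 * 1 := by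
    rw [abs_mul, abs_of_pos ht.par.b0]
    have h3 : |z 0| ≤ 1 := ht.small.trans (ht.par.r1.trans (by norm_num))
    exact mul_le_mul ht.par.b1 h3 (abs_nonneg _) (by positivity)
  rw [hs]
  have h4 := abs_add_le ((a - 2) - (z 1 - 2) * (z 1 + 2)) (b * z 0)
  have h5 := abs_sub (a - 2) ((z 1 - 2) * (z 1 + 2))
  linarith

theorem z_near {a b r : ℝ} {n : ℕ} {z : ℕ → ℝ} (ht : Thin a b r n z) (k : ℕ) :
    |z (k + 2) + 2| ≤ 5 ^ (k + 1) * r ^ 2 := by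
  induction k with
  | zero => simpa using z_two ht
  | succ k ih =>
    have hr2 := r_sq_le ht.par
    have hr0 : 0 ≤ r ^ 2 := sq_nonneg r
    have h1 := ht.orb.eqn (k + 1)
    have ha := ht.par.ha
    have hs : z (k + 1 + 2) + 2 =
        (a - 2) - (z (k + 2) + 2) * (z (k + 2) - 2) + b * z (k + 1) := by
      have h2 : z (k + 1 + 1) = z (k + 2) := rfl
      rw [h2] at h1
      linear_combination h1
    have hz := bound ht.par ht.orb (k + 2)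
    have hz' := abs_le.1 hz
    have hp : |z (k + 2) - 2| ≤ 401 / 100 := by
      rw [abs_le]
      constructor <;> linarith [hz'.1, hz'.2]
    have hm : |(z (k + 2) + 2) * (z (k + 2) - 2)| ≤ 5 ^ (k + 1) * r ^ 2 * (401 / 100) := by
      rw [abs_mul]
      exact mul_le_mul ih hp (abs_nonneg _) (by positivity)
    have hbz : |b * z (k + 1)| ≤ r ^ 2 / 1000 * (21 / 10) := by
      rw [abs_mul, abs_of_pos ht.par.b0]
      have h3 := bound ht.par ht.orb (k + 1)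
      have : |z (k + 1)| ≤ 21 / 10 := by linarith
      exact mul_le_mul ht.par.b1 this (abs_nonneg _) (by positivity)
    rw [hs]
    have h4 := abs_add_le ((a - 2) - (z (k + 2) + 2) * (z (k + 2) - 2)) (b * z (k + 1))
    have h5 := abs_sub (a - 2) ((z (k + 2) + 2) * (z (k + 2) - 2))
    have h6 : (1 : ℝ) * r ^ 2 ≤ 5 ^ (k + 1) * r ^ 2 := by
      apply mul_le_mul_of_nonneg_right _ hr0
      exact one_le_pow₀ (by norm_num)
    have h7 : (5 : ℝ) ^ (k + 1 + 1) * r ^ 2 = 5 * (5 ^ (k + 1) * r ^ 2) := by ring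
    rw [h7]
    linarith

theorem start {a b r : ℝ} {n : ℕ} {z : ℕ → ℝ} (ht : Thin a b r n z) :
    ∀ k, 1 ≤ k → k ≤ 16 → 19 / 10 ≤ |z k| := by
  intro k hk1 hk16
  have hr2 := r_sq_le ht.par
  have hr0 : 0 ≤ r ^ 2 := sq_nonneg r
  rcases Nat.lt_or_ge k 2 with h | h
  · have hk : k = 1 := by omega
    subst hk
    have h1 := abs_le.1 (z_one ht)
    have h2 := le_abs_self (z 1)
    linarith [h1.1, h1.2]
  · obtain ⟨j, rfl⟩ : ∃ j, k = j + 2 := ⟨k - 2, by omega⟩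
    have h1 := z_near ht j
    have h2 : (5 : ℝ) ^ (j + 1) * r ^ 2 ≤ 5 ^ 15 * (1 / 10 ^ 14) := by
      apply mul_le_mul _ hr2 hr0 (by positivity)
      exact pow_le_pow_right₀ (by norm_num) (by omega)
    have h3 : (5 : ℝ) ^ 15 * (1 / 10 ^ 14) ≤ 1 / 10 := by norm_num
    have h4 := abs_le.1 (h1.trans (h2.trans h3))
    have h5 := neg_le_abs (z (j + 2))
    linarith [h4.1, h4.2]

theorem n_large {a b r : ℝ} {n : ℕ} {z : ℕ → ℝ} (ht : Thin a b r n z) : 16 ≤ n := by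
  by_contra hcon
  have h1 := start ht (n + 1) (by omega) (by omega)
  rw [ht.orb.per] at h1
  have h2 := ht.small
  have h3 := ht.par.r1
  have h4 : (1 : ℝ) / 10 ^ 7 ≤ 1 := by norm_num
  linarith

theorem wt_one {a b r : ℝ} {n : ℕ} {z : ℕ → ℝ} (ht : Thin a b r n z) :
    wt r (z 1) ≤ 23 / 10 * r := by
  have hr2 := r_sq_le ht.par
  have hr0 : 0 ≤ r ^ 2 := sq_nonneg r
  have hrp := ht.par.r0
  have h1 := abs_le.1 (z_one ht)
  unfold wt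
  rw [Real.sqrt_le_iff]
  refine ⟨by positivity, ?_⟩
  have h2 : (2 + r ^ 2 / 8) ^ 2 - z 1 ^ 2 = (2 + r ^ 2 / 8 - z 1) * (2 + r ^ 2 / 8 + z 1) := by
    ring
  rw [h2]
  have h3 : 2 + r ^ 2 / 8 - z 1 ≤ 1225 / 1000 * r ^ 2 := by linarith [h1.1, h1.2]
  have h4 : 2 + r ^ 2 / 8 + z 1 ≤ 41 / 10 := by linarith [h1.1, h1.2]
  have h5 : 0 ≤ 2 + r ^ 2 / 8 + z 1 := by linarith [h1.1, h1.2]
  calc (2 + r ^ 2 / 8 - z 1) * (2 + r ^ 2 / 8 + z 1)
      ≤ (1225 / 1000 * r ^ 2) * (41 / 10) := mul_le_mul h3 h4 h5 (by positivity)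
    _ ≤ (23 / 10 * r) ^ 2 := by nlinarith

theorem wt_zero {a b r x : ℝ} (h : Par a b r) (hx : |x| ≤ r) : 19 / 10 ≤ wt r x := by
  have hr2 := r_sq_le h
  have hr0 : 0 ≤ r ^ 2 := sq_nonneg r
  unfold wt
  apply Real.le_sqrt_of_sq_le
  have h1 := abs_le.1 hx
  have h2 : x ^ 2 ≤ r ^ 2 := by nlinarith [h1.1, h1.2]
  nlinarith [sq_nonneg (r ^ 2)]

end Pool.Agent.helper23.HT
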