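import Pool.Agent.helper23.HT.Basic
import Pool.Agent.helper23.HT.Start
import Pool.Agent.helper23.HT.Comp

/-!
# The adjoint solution, bound (module HT-AdjBound)
-/

namespace Pool.Agent.helper23.HT

open Pool.Agent.helper23.HS Finset

theorem adj_bound {a b r : ℝ} {n : ℕ} {z g : ℕ → ℝ} (ht : Thin a b r n z)
    (g0 : g 0 = 1) (g1 : g (n + 1) = 1)
    (hg : ∀ k, k < n → g k + 2 * z (k + 1) * g (k + 1) - b * g (k + 2) = 0) :
    ∀ k, k ≤ n + 1 → |g k| ≤ 33 / 10 * ((3 / 5) ^ k + (1 / 50) ^ (n + 1 - k)) := by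
  have hp := ht.par
  have hr0 := hp.r0
  have hr1 := hp.r1
  have hb0 := hp.b0
  have hb1 := hp.b1
  have hbd := bound hp ht.orb
  have hwge : ∀ k, 7 / 10 * r ≤ wt r (z k) := fun k => wt_ge hp (hbd k)
  have hwle : ∀ k, wt r (z k) ≤ 201 / 100 := fun k => wt_le hp _
  have hw0 : ∀ k, 0 ≤ wt r (z k) := fun k => le_trans (by positivity) (hwge k)
  have hw1 := wt_one ht
  -- the recursion
  have hG : ∀ k, k < n → |g (k + 1)| * wt r (z (k + 1 + 1)) ≤
      107 / 200 * (|g k| * wt r (z (k + 1))) + 1 / 1000 * (|g (k + 2)| * wt r (z (k + 2 + 1))) + 0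
      := by
    intro k hk
    have h1 : z (k + 2) = a - z (k + 1) ^ 2 + b * z k := by
      have := ht.orb.eqn k
      linarith
    have hout : r ≤ |z (k + 1)| := by
      have := ht.orb.out (k + 1) (by omega) (by omega)
      rw [abs_mul, abs_two] at this
      linarith
    have h2 : wt r (z (k + 2)) ≤ 107 / 100 * |z (k + 1)| * wt r (z (k + 1)) := by
      rw [h1]
      exact wt_step hp (hbd _) (hbd _) hout
    have h3 : 2 * |z (k + 1)| * |g (k + 1)| ≤ |g k| + b * |g (k + 2)| := by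
      have h4 : 2 * z (k + 1) * g (k + 1) = b * g (k + 2) - g k := by
        have := hg k hk
        linarith
      have h5 : |2 * z (k + 1) * g (k + 1)| = 2 * |z (k + 1)| * |g (k + 1)| := by
        rw [abs_mul, abs_mul, abs_two]
      rw [← h5, h4]
      calc |b * g (k + 2) - g k| ≤ |b * g (k + 2)| + |g k| := abs_sub _ _
        _ = b * |g (k + 2)| + |g k| := by rw [abs_mul, abs_of_pos hb0]
        _ = |g k| + b * |g (k + 2)| := add_comm _ _
    have hwk := hw0 (k + 1)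
    have h6 : |g (k + 1)| * wt r (z (k + 2)) ≤
        107 / 200 * (|g k| * wt r (z (k + 1))) +
          107 / 200 * (b * wt r (z (k + 1))) * |g (k + 2)| := by
      have h7 := mul_le_mul_of_nonneg_left h2 (abs_nonneg (g (k + 1)))
      have h8 := mul_le_mul_of_nonneg_right h3 hwk
      nlinarith [h7, h8]
    have h9 : 107 / 200 * (b * wt r (z (k + 1))) ≤ 1 / 1000 * wt r (z (k + 3)) := by
      have h10 := hwge (k + 3)
      have h11 := hwle (k + 1)
      have h12 : b * wt r (z (k + 1)) ≤ r ^ 2 / 1000 * (201 / 100) :=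
        mul_le_mul hb1 h11 hwk (by positivity)
      have h13 : r ^ 2 ≤ r * (1 / 10 ^ 7) := by
        rw [sq]; exact mul_le_mul_of_nonneg_left hr1 hr0.le
      nlinarith
    have h14 := mul_le_mul_of_nonneg_right h9 (abs_nonneg (g (k + 2)))
    show |g (k + 1)| * wt r (z (k + 2)) ≤ 107 / 200 * (|g k| * wt r (z (k + 1))) +
      1 / 1000 * (|g (k + 2)| * wt r (z (k + 3))) + 0
    linarith
  -- the majorant
  have hU : ∀ k, k < n → 107 / 200 * (23 / 10 * r * ((3 / 5) ^ k + (1 / 50) ^ (n + 1 - k))) +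
      1 / 1000 * (23 / 10 * r * ((3 / 5) ^ (k + 2) + (1 / 50) ^ (n + 1 - (k + 2)))) + 0 ≤
      23 / 10 * r * ((3 / 5) ^ (k + 1) + (1 / 50) ^ (n + 1 - (k + 1))) := by
    intro k hk
    obtain ⟨m, hm⟩ : ∃ m, n + 1 - (k + 2) = m := ⟨_, rfl⟩
    have e1 : n + 1 - (k + 1) = m + 1 := by omega
    have e0 : n + 1 - k = m + 2 := by omega
    rw [hm, e1, e0]
    have hP : (0 : ℝ) < (3 / 5) ^ k := by positivity
    have hQ : (0 : ℝ) < (1 / 50) ^ m := by positivity
    have hrr : (0 : ℝ) < 23 / 10 * r := by positivity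
    have key : 107 / 200 * (((3 : ℝ) / 5) ^ k + (1 / 50) ^ (m + 2)) +
        1 / 1000 * ((3 / 5) ^ (k + 2) + (1 / 50) ^ m) ≤ (3 / 5) ^ (k + 1) + (1 / 50) ^ (m + 1) := by
      rw [pow_add, pow_add, pow_add, pow_add]
      nlinarith
    have h := mul_le_mul_of_nonneg_left key hrr.le
    linarith
  have hcmp := compare (n := n) (G := fun k => |g k| * wt r (z (k + 1)))
    (U := fun k => 23 / 10 * r * ((3 / 5) ^ k + (1 / 50) ^ (n + 1 - k)))
    (α := 107 / 200) (β := 1 / 1000) (γ := 0) (by norm_num) (by norm_num) (by norm_num)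
    (by
      show |g 0| * wt r (z (0 + 1)) ≤ 23 / 10 * r * ((3 / 5) ^ 0 + (1 / 50) ^ (n + 1 - 0))
      rw [g0, abs_one, one_mul, pow_zero]
      have h1 : (0 : ℝ) ≤ 23 / 10 * r * (1 / 50) ^ (n + 1 - 0) := by positivity
      have h2 : wt r (z (0 + 1)) ≤ 23 / 10 * r := hw1
      linarith)
    (by
      show |g (n + 1)| * wt r (z (n + 1 + 1)) ≤
        23 / 10 * r * ((3 / 5) ^ (n + 1) + (1 / 50) ^ (n + 1 - (n + 1)))
      have h3 : z (n + 1 + 1) = z 1 := ht.orb.per1
      rw [g1, abs_one, one_mul, Nat.sub_self, pow_zero, h3]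
      have h1 : (0 : ℝ) ≤ 23 / 10 * r * (3 / 5) ^ (n + 1) := by positivity
      linarith)
    hG hU
  intro k hk
  have h1 := hcmp k hk
  have h2 : |g k| * wt r (z (k + 1)) ≤
    23 / 10 * r * ((3 / 5) ^ k + (1 / 50) ^ (n + 1 - k)) := h1
  have h3 := mul_le_mul_of_nonneg_left (hwge (k + 1)) (abs_nonneg (g k))
  have h4 : (0 : ℝ) ≤ (3 / 5) ^ k + (1 / 50) ^ (n + 1 - k) := by positivity
  have h5 : |g k| * (7 / 10 * r) ≤ 23 / 10 * r * ((3 / 5) ^ k + (1 / 50) ^ (n + 1 - k)) :=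
    h3.trans h2
  have h6 : r * (7 * |g k|) ≤ r * (23 * ((3 / 5) ^ k + (1 / 50) ^ (n + 1 - k))) := by linarith
  have h7 := le_of_mul_le_mul_left h6 hr0
  linarith

end Pool.Agent.helper23.HT
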