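import Pool.Agent.helper23.HS.Adj

/-!
# The adjoint solution, existence (module HT-AdjE)

Same proof as `adjoint` in HS/Adj.lean (its parts 1, 2, 3 and 5; the growth is used there only for
`v (n+1) ≠ 0`).
-/

namespace Pool.Agent.helper23.HT

open Pool.Agent.helper23.HS

theorem adjoint_exists {b : ℝ} {c : ℕ → ℝ} {n : ℕ} (hv : sol b c 0 1 (n + 1) ≠ 0) :
    ∃ g : ℕ → ℝ, g 0 = 1 ∧ g (n + 1) = 1 ∧
      (∀ k, k < n → g k + c (k + 1) * g (k + 1) - b * g (k + 2) = 0) ∧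
      (g n + c 0 - b * g 1) * sol b c 0 1 (n + 1) = chi b c n := by
  obtain ⟨t, ht⟩ : ∃ t : ℝ, t * sol b c 0 1 (n + 1) = 1 - b * sol b c 0 1 n :=
    ⟨(1 - b * sol b c 0 1 n) / sol b c 0 1 (n + 1), div_mul_cancel₀ _ hv⟩
  obtain ⟨g, hgdef⟩ : ∃ g : ℕ → ℝ, ∀ k, g k = sol b (fun i => c (n + 1 - i)) 1 t (n + 1 - k) :=
    ⟨_, fun _ => rfl⟩
  have hgn1 : g (n + 1) = 1 := by
    rw [hgdef, Nat.sub_self]
    rfl
  have hgn : g n = t := by
    rw [hgdef, Nat.add_sub_cancel_left]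
    rfl
  have hg : ∀ k, k < n → g k + c (k + 1) * g (k + 1) - b * g (k + 2) = 0 := by
    intro k hk
    obtain ⟨j, rfl⟩ : ∃ j, n = k + 1 + j := ⟨n - (k + 1), by omega⟩
    have e0 : k + 1 + j + 1 - k = j + 2 := by omega
    have e1 : k + 1 + j + 1 - (k + 1) = j + 1 := by omega
    have e2 : k + 1 + j + 1 - (k + 2) = j := by omega
    have e3 : k + 1 + j + 1 - (j + 1) = k + 1 := by omega
    rw [hgdef k, hgdef (k + 1), hgdef (k + 2), e0, e1, e2, sol_rec]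
    simp only [e3]
    ring
  have hW1 := wronskian (x := sol b c 0 1) hg (sol_rec b c 0 1) n le_rfl
  have hW2 := wronskian (x := sol b c 1 (-c 0)) hg (sol_rec b c 1 (-c 0)) n le_rfl
  rw [hgn, hgn1, sol_zero, sol_one] at hW1 hW2
  have hg0 : g 0 = 1 := by linarith
  refine ⟨g, hg0, hgn1, hg, ?_⟩
  rw [hg0] at hW2
  have h11 : g n + c 0 - b * g 1 = t - t * sol b c 1 (-c 0) (n + 1) - b * sol b c 1 (-c 0) n := by
    rw [hgn]
    linarith
  rw [h11, chi]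
  linear_combination (1 - sol b c 1 (-c 0) (n + 1)) * ht

end Pool.Agent.helper23.HT
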