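import Pool.Agent.helper23.HT.Basic
import Pool.Agent.helper23.HT.Start
import Pool.Agent.helper23.HT.Comp

namespace Pool.Agent.helper23.HT

open Pool.Agent.helper23.HS Finset

theorem adj_geo1 (m : ℕ) : ∑ x ∈ range m, ((3 : ℝ) / 5) ^ (17 + x) ≤ (3 / 5) ^ 17 * (5 / 2) := by
  have h : ∀ m : ℕ, ∑ x ∈ range m, ((3 : ℝ) / 5) ^ (17 + x)
      = (3 / 5) ^ 17 * (5 / 2) * (1 - (3 / 5) ^ m) := by
    intro m
    induction m with
    | zero => simp
    | succ m ih => rw [sum_range_succ, ih]; ring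
  rw [h m]
  have h1 : (0 : ℝ) ≤ (3 / 5) ^ m := by positivity
  have h2 : (0 : ℝ) < (3 / 5) ^ 17 * (5 / 2) := by positivity
  nlinarith

theorem adj_geo2 (m : ℕ) : ∑ x ∈ range m, ((1 : ℝ) / 50) ^ (m - x) ≤ 1 / 49 := by
  induction m with
  | zero => simp
  | succ m ih =>
    have h : ∑ x ∈ range m, ((1 : ℝ) / 50) ^ (m + 1 - x)
        = 1 / 50 * ∑ x ∈ range m, ((1 : ℝ) / 50) ^ (m - x) := by
      rw [mul_sum]
      refine sum_congr rfl fun x hx => ?_
      rw [mem_range] at hx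
      rw [show m + 1 - x = (m - x) + 1 by omega, pow_succ]
      ring
    rw [sum_range_succ, h, show m + 1 - m = 1 by omega]
    linarith

theorem adj_sum {a b r : ℝ} {n : ℕ} {z g : ℕ → ℝ} (ht : Thin a b r n z)
    (g0 : g 0 = 1) (g1 : g (n + 1) = 1)
    (hg : ∀ k, k < n → g k + 2 * z (k + 1) * g (k + 1) - b * g (k + 2) = 0)
    (hb : ∀ k, k ≤ n + 1 → |g k| ≤ 33 / 10 * ((3 / 5) ^ k + (1 / 50) ^ (n + 1 - k))) :
    ∑ k ∈ range n, |g (k + 1)| ≤ 1 / 2 := by
  have hn := n_large ht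
  obtain ⟨m, rfl⟩ : ∃ m, n = 16 + m := ⟨n - 16, by omega⟩
  have hb0 := ht.par.b0
  have hb1 : b ≤ 1 / 10 ^ 17 := by
    have h1 := ht.par.b1
    have h2 := ht.par.r1
    have h3 := ht.par.r0
    have h4 : r ^ 2 ≤ (1 / 10 ^ 7) ^ 2 := pow_le_pow_left₀ h3.le h2 2
    calc b ≤ r ^ 2 / 1000 := h1
      _ ≤ (1 / 10 ^ 7) ^ 2 / 1000 := by linarith
      _ ≤ 1 / 10 ^ 17 := by norm_num
  have h7 : ∀ k, k ≤ 16 + m + 1 → |g k| ≤ 7 := by
    intro k hk
    have h1 := hb k hk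
    have h2 : ((3 : ℝ) / 5) ^ k ≤ 1 := pow_le_one₀ (by norm_num) (by norm_num)
    have h3 : ((1 : ℝ) / 50) ^ (16 + m + 1 - k) ≤ 1 := pow_le_one₀ (by norm_num) (by norm_num)
    linarith
  have hstep : ∀ k, k < 16 → |g (k + 1)| ≤ 5 / 19 * (|g k| + 7 * b) := by
    intro k hk
    have h1 := hg k (by omega)
    have h2 := start ht (k + 1) (by omega) (by omega)
    have h3 := h7 (k + 2) (by omega)
    have h4 : 2 * (|z (k + 1)| * |g (k + 1)|) ≤ |g k| + b * |g (k + 2)| := by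
      have h5 : 2 * (z (k + 1) * g (k + 1)) = b * g (k + 2) - g k := by linarith
      have h6 : 2 * (|z (k + 1)| * |g (k + 1)|) = |b * g (k + 2) - g k| := by
        rw [← h5, abs_mul, abs_mul, abs_of_pos (by norm_num : (0 : ℝ) < 2)]
      rw [h6]
      refine (abs_sub _ _).trans ?_
      rw [abs_mul, abs_of_pos hb0]
      linarith
    have h8 : 19 / 10 * |g (k + 1)| ≤ |z (k + 1)| * |g (k + 1)| :=
      mul_le_mul_of_nonneg_right h2 (abs_nonneg _)
    have h9 : b * |g (k + 2)| ≤ b * 7 := mul_le_mul_of_nonneg_left h3 hb0.le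
    linarith
  have hA : ∑ k ∈ range 16, |g (k + 1)| ≤ 36 / 100 := by
    have h1 : ∑ k ∈ range 16, |g (k + 1)| ≤ ∑ k ∈ range 16, 5 / 19 * (|g k| + 7 * b) :=
      sum_le_sum fun k hk => hstep k (mem_range.1 hk)
    have h2 : ∑ k ∈ range 16, 5 / 19 * (|g k| + 7 * b)
        = 5 / 19 * (∑ k ∈ range 16, |g k| + 112 * b) := by
      rw [← mul_sum, sum_add_distrib, sum_const, card_range, nsmul_eq_mul]
      ring
    have h3 : ∑ k ∈ range 16, |g k| ≤ 1 + ∑ k ∈ range 16, |g (k + 1)| := by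
      rw [sum_range_succ' (fun k => |g k|) 15, sum_range_succ (fun k => |g (k + 1)|) 15, g0,
        abs_one]
      have := abs_nonneg (g (15 + 1))
      linarith
    rw [h2] at h1
    have h4 : (112 : ℝ) * b ≤ 1 / 1000 := by
      have : (112 : ℝ) * (1 / 10 ^ 17) ≤ 1 / 1000 := by norm_num
      linarith
    linarith
  have hB : ∑ x ∈ range m, |g (16 + x + 1)| ≤ 8 / 100 := by
    have h1 : ∑ x ∈ range m, |g (16 + x + 1)|
        ≤ ∑ x ∈ range m, 33 / 10 * (((3 : ℝ) / 5) ^ (17 + x) + (1 / 50) ^ (m - x)) := by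
      refine sum_le_sum fun x hx => ?_
      rw [mem_range] at hx
      have h2 := hb (16 + x + 1) (by omega)
      rw [show 16 + m + 1 - (16 + x + 1) = m - x by omega,
        show 16 + x + 1 = 17 + x by omega] at h2
      rw [show 16 + x + 1 = 17 + x by omega]
      exact h2
    rw [← mul_sum, sum_add_distrib] at h1
    have h2 := adj_geo1 m
    have h3 := adj_geo2 m
    have h4 : ((3 : ℝ) / 5) ^ 17 * (5 / 2) ≤ 1 / 1000 := by norm_num
    linarith
  rw [sum_range_add]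
  linarith

end Pool.Agent.helper23.HT
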