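import Pool.Agent.helper23.HT.Defs

/-!
# Bounds for orbits and weights (module HT-Basic)

`e = r^2/1000`.
bound: `z` is periodic (`z (k + n + 1) = z k` for all `k`, from `per`, `per1`, `eqn`), let `Z` be the
maximum of `|z|`, attained at some index `k + 1`; `Z^2 = a - z (k+2) + b z k ≤ a + (1 + b) Z`. If
`Z > 2 + e` then `Z^2 - (1+b) Z - a > (2+e)^2 - (1+b)(2+e) - a ≥ 0` (increasing in `Z ≥ 1`), a
contradiction.
wt_ge: `(2 + r^2/8)^2 - (2 + e)^2 ≥ 4 (r^2/8 - r^2/1000) ≥ (7 r/10)^2`.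
wt_step: put `A = a + b y`, `|A - 2| ≤ 4 e`, `Bc = 2 + r^2/8`. Then
`Bc^2 - (A - x^2)^2 = (Bc - A + x^2)(Bc + A - x^2) ≤ (x^2 + 13/100 r^2)(Bc^2 - x^2)`
(`Bc + A ≤ Bc^2`), and `x^2 + 13/100 r^2 ≤ 113/100 x^2 ≤ (107/100)^2 x^2`.
wt_pair: the same with `m = (x + x')/2`, `A = (a + b y + a' + b y')/2`,
`(x^2 + x'^2)/2 = m^2 + (x - x')^2/4` and `(x - x')^2/4 ≤ m^2` (same sign): factor
`m^2 + (x-x')^2/4 + 13/100 r^2 ≤ 213/100 m^2 ≤ (146/100 m)^2` (`|m| ≥ r`).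
-/

namespace Pool.Agent.helper23.HT

open Pool.Agent.helper23.HS

theorem h50_per {a b R : ℝ} {n : ℕ} {z : ℕ → ℝ} (ho : Orb a b R n z) :
    ∀ k, z (k + (n + 1)) = z k ∧ z (k + 1 + (n + 1)) = z (k + 1) := by
  intro k
  induction k with
  | zero =>
    refine ⟨by rw [zero_add]; exact ho.per, ?_⟩
    have : 0 + 1 + (n + 1) = n + 2 := by omega
    rw [this, zero_add]
    exact ho.per1
  | succ k ih =>
    refine ⟨ih.2, ?_⟩
    have h1 := ho.eqn (k + (n + 1))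
    have h2 := ho.eqn k
    have e1 : k + (n + 1) + 2 = k + 1 + 1 + (n + 1) := by omega
    have e2 : k + (n + 1) + 1 = k + 1 + (n + 1) := by omega
    rw [e1, e2, ih.1, ih.2] at h1
    have e3 : k + 1 + 1 = k + 2 := rfl
    rw [e3] at h1 ⊢
    linarith

theorem h50_mod {a b R : ℝ} {n : ℕ} {z : ℕ → ℝ} (ho : Orb a b R n z) :
    ∀ k, z (k % (n + 1)) = z k := by
  intro k
  induction k using Nat.strong_induction_on with
  | _ k ih =>
    rcases Nat.lt_or_ge k (n + 1) with h | h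
    · rw [Nat.mod_eq_of_lt h]
    · have h1 := ih (k - (n + 1)) (by omega)
      have h2 := (h50_per ho (k - (n + 1))).1
      have e1 : k - (n + 1) + (n + 1) = k := by omega
      rw [e1] at h2
      rw [h2, ← h1, Nat.mod_eq_sub_mod h]

theorem bound {a b r : ℝ} {n : ℕ} {z : ℕ → ℝ} (h : Par a b r) (ho : Orb a b (2 * r) n z) :
    ∀ k, |z k| ≤ 2 + r ^ 2 / 1000 := by
  obtain ⟨k0, hk0, hmax⟩ := Finset.exists_max_image (Finset.range (n + 1)) (fun k => |z k|)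
    ⟨0, Finset.mem_range.2 (Nat.succ_pos n)⟩
  have hall : ∀ k, |z k| ≤ |z k0| := by
    intro k
    rw [← h50_mod ho k]
    exact hmax _ (Finset.mem_range.2 (Nat.mod_lt _ (Nat.succ_pos n)))
  have hZ : |z k0| ≤ 2 + r ^ 2 / 1000 := by
    by_contra hcon
    rw [not_le] at hcon
    have h1 := (h50_per ho k0).1
    have e1 : k0 + (n + 1) = k0 + n + 1 := by omega
    rw [e1] at h1
    have h2 := ho.eqn (k0 + n)
    rw [h1] at h2
    have h3 := hall (k0 + n + 2)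
    have h4 := hall (k0 + n)
    have h5 := h.ha
    have h6 := h.b0
    have h7 := h.b1
    set e := r ^ 2 / 1000 with he
    have he0 : 0 ≤ e := by rw [he]; positivity
    have h8 : |z k0| ^ 2 = z k0 ^ 2 := sq_abs _
    have h9 := abs_le.1 h3
    have h10 := abs_le.1 h4
    have h11 := abs_le.1 h5
    have h12 : b * z (k0 + n) ≤ b * |z k0| := mul_le_mul_of_nonneg_left h10.2 h6.le
    set Z := |z k0| with hZdef
    have h13 : Z ^ 2 ≤ a + Z + b * Z := by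
      rw [h8]
      linarith [h9.1]
    have h14 : 0 < (Z - (2 + e)) * (Z + 2 + e - (1 + b)) := by
      apply mul_pos
      · linarith
      · have : e ≤ 1 / 1000 := by
          rw [he]
          have := h.r0
          have := h.r1
          nlinarith
        linarith
    have h15 : 0 ≤ (e - b) * e := mul_nonneg (by linarith) he0
    nlinarith
  intro k
  exact (hall k).trans hZ

theorem h50_small {a b r : ℝ} (h : Par a b r) : r ^ 2 / 1000 ≤ 1 / 1000 := by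
  have := h.r0
  have := h.r1
  have : r ^ 2 ≤ 1 := by nlinarith
  linarith

theorem wt_ge {a b r x : ℝ} (h : Par a b r) (hx : |x| ≤ 2 + r ^ 2 / 1000) :
    7 / 10 * r ≤ wt r x := by
  have h0 := h.r0
  have h1 := abs_le.1 hx
  unfold wt
  apply Real.le_sqrt_of_sq_le
  have h2 : x ^ 2 ≤ (2 + r ^ 2 / 1000) ^ 2 := sq_le_sq' h1.1 h1.2
  have h3 : 0 ≤ (r ^ 2) ^ 2 := by positivity
  nlinarith

theorem wt_le {a b r : ℝ} (h : Par a b r) (x : ℝ) : wt r x ≤ 201 / 100 := by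
  have h0 := h.r0
  have h1 := h50_small h
  unfold wt
  rw [Real.sqrt_le_iff]
  refine ⟨by norm_num, ?_⟩
  have h2 : 0 ≤ x ^ 2 := sq_nonneg x
  have h3 : r ^ 2 ≤ 1 / 100 := by
    have := h.r1
    nlinarith
  have h4 : 0 ≤ r ^ 2 := sq_nonneg r
  nlinarith

theorem h50_A {a b r y : ℝ} (h : Par a b r) (hy : |y| ≤ 2 + r ^ 2 / 1000) :
    |a + b * y - 2| ≤ 4 / 1000 * r ^ 2 := by
  have h1 := abs_le.1 h.ha
  have h2 := abs_le.1 hy
  have h3 := h.b0
  have h4 := h.b1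
  have h5 := h50_small h
  have h6 : b * y ≤ b * 3 := mul_le_mul_of_nonneg_left (by linarith) h3.le
  have h7 : b * (-3) ≤ b * y := mul_le_mul_of_nonneg_left (by linarith) h3.le
  rw [abs_le]
  constructor <;> linarith

theorem h50_core {r A m s : ℝ} (hr0 : 0 < r)
    (hA : |A - 2| ≤ 4 / 1000 * r ^ 2) (hm : |m| ≤ 2 + r ^ 2 / 1000)
    (hs : 0 ≤ s) {C : ℝ} (hC : 0 ≤ C)
    (hbd : m ^ 2 + s + 13 / 100 * r ^ 2 ≤ (C * |m|) ^ 2) :
    wt r (A - m ^ 2 - s) ≤ C * |m| * wt r m := by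
  have hA' := abs_le.1 hA
  have hm' := abs_le.1 hm
  have hr2 : 0 < r ^ 2 := by positivity
  have hB : m ^ 2 ≤ (2 + r ^ 2 / 8) ^ 2 := by
    apply sq_le_sq' <;> linarith
  have hwm : wt r m ^ 2 = (2 + r ^ 2 / 8) ^ 2 - m ^ 2 := by
    unfold wt
    rw [Real.sq_sqrt]
    linarith
  have hw0 : 0 ≤ wt r m := Real.sqrt_nonneg _
  have hgoal : (2 + r ^ 2 / 8) ^ 2 - (A - m ^ 2 - s) ^ 2 ≤ (C * |m| * wt r m) ^ 2 := by
    rw [mul_pow, hwm]
    have h1 : 0 ≤ 2 + r ^ 2 / 8 - A + m ^ 2 + s := by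
      have := sq_nonneg m
      linarith
    have h2 : 2 + r ^ 2 / 8 + A - m ^ 2 - s ≤ (2 + r ^ 2 / 8) ^ 2 - m ^ 2 := by
      have : 0 ≤ (r ^ 2 / 8) ^ 2 := sq_nonneg _
      nlinarith
    have h3 : 2 + r ^ 2 / 8 - A + m ^ 2 + s ≤ (C * |m|) ^ 2 := by linarith
    calc (2 + r ^ 2 / 8) ^ 2 - (A - m ^ 2 - s) ^ 2
        = (2 + r ^ 2 / 8 - A + m ^ 2 + s) * (2 + r ^ 2 / 8 + A - m ^ 2 - s) := by ring
      _ ≤ (2 + r ^ 2 / 8 - A + m ^ 2 + s) * ((2 + r ^ 2 / 8) ^ 2 - m ^ 2) :=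
          mul_le_mul_of_nonneg_left h2 h1
      _ ≤ (C * |m|) ^ 2 * ((2 + r ^ 2 / 8) ^ 2 - m ^ 2) :=
          mul_le_mul_of_nonneg_right h3 (by linarith)
  show Real.sqrt ((2 + r ^ 2 / 8) ^ 2 - (A - m ^ 2 - s) ^ 2) ≤ C * |m| * wt r m
  rw [Real.sqrt_le_iff]
  refine ⟨?_, hgoal⟩
  have := abs_nonneg m
  positivity

theorem wt_step {a b r x y : ℝ} (h : Par a b r) (hx : |x| ≤ 2 + r ^ 2 / 1000)
    (hy : |y| ≤ 2 + r ^ 2 / 1000) (hr : r ≤ |x|) :
    wt r (a - x ^ 2 + b * y) ≤ 107 / 100 * |x| * wt r x := by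
  have h1 := h50_A h hy
  have h0 := h.r0
  have h2 : r ^ 2 ≤ x ^ 2 := by
    rw [← sq_abs x]
    exact pow_le_pow_left₀ h0.le hr 2
  have h3 := h50_core (A := a + b * y) (m := x) (s := 0) (C := 107 / 100) h0 h1 hx le_rfl
    (by norm_num) (by
      rw [mul_pow, sq_abs]
      linarith [sq_nonneg x])
  have e1 : a - x ^ 2 + b * y = a + b * y - x ^ 2 - 0 := by ring
  rw [e1]
  exact h3

theorem wt_pair {a a' b r x x' y y' : ℝ} (h : Par a b r) (h' : Par a' b r)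
    (hx : |x| ≤ 2 + r ^ 2 / 1000) (hx' : |x'| ≤ 2 + r ^ 2 / 1000)
    (hy : |y| ≤ 2 + r ^ 2 / 1000) (hy' : |y'| ≤ 2 + r ^ 2 / 1000)
    (hr : r ≤ |x|) (hr' : r ≤ |x'|) (hs : 0 < x * x') :
    wt r (((a - x ^ 2 + b * y) + (a' - x' ^ 2 + b * y')) / 2)
      ≤ 146 / 100 * |(x + x') / 2| * wt r ((x + x') / 2) := by
  have h1 := abs_le.1 (h50_A h hy)
  have h1' := abs_le.1 (h50_A h' hy')
  have h0 := h.r0
  have h2 : r ^ 2 ≤ x ^ 2 := by
    rw [← sq_abs x]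
    exact pow_le_pow_left₀ h0.le hr 2
  have h2' : r ^ 2 ≤ x' ^ 2 := by
    rw [← sq_abs x']
    exact pow_le_pow_left₀ h0.le hr' 2
  have h4 : r ^ 2 ≤ x * x' := by
    have : |x| * |x'| = x * x' := by rw [← abs_mul, abs_of_pos hs]
    rw [← this, sq]
    exact mul_le_mul hr hr' h0.le (abs_nonneg _)
  have hxx := abs_le.1 hx
  have hxx' := abs_le.1 hx'
  have h3 := h50_core (A := (a + b * y + (a' + b * y')) / 2) (m := (x + x') / 2)
    (s := (x - x') ^ 2 / 4) (C := 146 / 100) h0 (by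
      rw [abs_le]
      constructor <;> linarith) (by
      rw [abs_le]
      constructor <;> linarith) (by positivity) (by norm_num) (by
      rw [mul_pow, sq_abs]
      nlinarith)
  have e1 : ((a - x ^ 2 + b * y) + (a' - x' ^ 2 + b * y')) / 2 =
      (a + b * y + (a' + b * y')) / 2 - ((x + x') / 2) ^ 2 - (x - x') ^ 2 / 4 := by ring
  rw [e1]
  exact h3

end Pool.Agent.helper23.HT
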