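import Pool.Agent.helper23.HT.Basic
import Pool.Agent.helper23.HT.Start
import Pool.Agent.helper23.HT.Comp

/-!
# The difference of two orbits with the same signs (module HT-Pair)

`d k = z' k - z k`, `m k = (z k + z' k)/2`, `w k = wt r (m k)`, `e = |a' - a|`. Subtracting the equations:
`d (k+2) = -2 m (k+1) d (k+1) + b d k + (a' - a)`, so
`2 |m (k+1)| |d (k+1)| ≤ |d (k+2)| + b |d k| + e` for `k < n`. By `wt_pair`
`w (k+2) ≤ (146/100) |m (k+1)| w (k+1)`, so with `D k = |d k| / w k`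
`D (k+1) ≤ (73/100) D (k+2) + (1/1000) D k + (21/20) e / r`
(`7/10 r ≤ w ≤ 201/100`, `b ≤ r^2/1000`; `|m k| ≤ 2 + r^2/1000` by `bound`).
`D (n+1) = D 0` (periodicity). Comparison (`compare` of Comp.lean with `α = 1/1000`, `β = 73/100`,
`γ = (21/20) e / r`) with `U k = D 0 ((4/5)^(n+1-k) + (1/100)^k) + 4 e / r`:
`(73/100)/(4/5) + (1/1000)(4/5) ≤ 1`, `(73/100)/100 + 100/1000 ≤ 1`, `4 (731/1000) + 21/20 ≤ 4`.
Finally `|d k| = w k D k ≤ (201/100) D k` and `D 0 = |d 0| / w 0 ≤ |d 0| / (19/10)` (`wt_zero`).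
-/

namespace Pool.Agent.helper23.HT

open Pool.Agent.helper23.HS

/-- The one-step inequality for the weighted differences. -/
theorem pair_step {a a' b r : ℝ} {n : ℕ} {z z' : ℕ → ℝ} (ht : Thin a b r n z)
    (ht' : Thin a' b r n z') (hs : ∀ k, 1 ≤ k → k ≤ n → 0 < z k * z' k) (k : ℕ) (hk : k < n) :
    |z' (k + 1) - z (k + 1)| / wt r ((z (k + 1) + z' (k + 1)) / 2) ≤
      1 / 1000 * (|z' k - z k| / wt r ((z k + z' k) / 2))
      + 73 / 100 * (|z' (k + 2) - z (k + 2)| / wt r ((z (k + 2) + z' (k + 2)) / 2))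
      + 21 / 20 * (|a' - a| / r) := by
  have hr := ht.par.r0
  have hr1 := ht.par.r1
  have hb := ht.par.b0
  have hb1 := ht.par.b1
  have B := bound ht.par ht.orb
  have B' := bound ht'.par ht'.orb
  have hM : ∀ j, |(z j + z' j) / 2| ≤ 2 + r ^ 2 / 1000 := by
    intro j
    have h1 := abs_le.mp (B j)
    have h2 := abs_le.mp (B' j)
    rw [abs_le]
    constructor <;> linarith [h1.1, h1.2, h2.1, h2.2]
  have W : ∀ j, 7 / 10 * r ≤ wt r ((z j + z' j) / 2) := fun j => wt_ge ht.par (hM j)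
  have W' : ∀ j, wt r ((z j + z' j) / 2) ≤ 201 / 100 := fun j => wt_le ht.par _
  have Wp : ∀ j, 0 < wt r ((z j + z' j) / 2) := fun j => lt_of_lt_of_le (by linarith) (W j)
  have o := ht.orb.out (k + 1) (by omega) (by omega)
  have o' := ht'.orb.out (k + 1) (by omega) (by omega)
  rw [abs_mul, abs_two] at o o'
  have hs1 := hs (k + 1) (by omega) (by omega)
  have P := wt_pair ht.par ht'.par (B (k + 1)) (B' (k + 1)) (B k) (B' k)
    (by linarith) (by linarith) hs1
  have e1 := ht.orb.eqn k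
  have e2 := ht'.orb.eqn k
  have hm2 : ((a - z (k + 1) ^ 2 + b * z k) + (a' - z' (k + 1) ^ 2 + b * z' k)) / 2
      = (z (k + 2) + z' (k + 2)) / 2 := by
    rw [← e1, ← e2]
    ring
  rw [hm2] at P
  have w0 := Wp k
  have w1 := Wp (k + 1)
  have w2 := Wp (k + 2)
  have w0u := W' k
  have w2l := W (k + 2)
  have hid : 2 * ((z (k + 1) + z' (k + 1)) / 2) * (z' (k + 1) - z (k + 1))
      = - (z' (k + 2) - z (k + 2)) + b * (z' k - z k) + (a' - a) := by
    rw [← e1, ← e2]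
    ring
  have hineq : 2 * |(z (k + 1) + z' (k + 1)) / 2| * |z' (k + 1) - z (k + 1)|
      ≤ |z' (k + 2) - z (k + 2)| + b * |z' k - z k| + |a' - a| := by
    have h1 : 2 * |(z (k + 1) + z' (k + 1)) / 2| * |z' (k + 1) - z (k + 1)|
        = |2 * ((z (k + 1) + z' (k + 1)) / 2) * (z' (k + 1) - z (k + 1))| := by
      rw [abs_mul, abs_mul, abs_two]
    rw [h1, hid]
    refine (abs_add_le _ _).trans ?_
    have h2 := abs_add_le (-(z' (k + 2) - z (k + 2))) (b * (z' k - z k))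
    rw [abs_neg, abs_mul, abs_of_pos hb] at h2
    linarith
  generalize hw0 : wt r ((z k + z' k) / 2) = W0 at *
  generalize hw1 : wt r ((z (k + 1) + z' (k + 1)) / 2) = W1 at *
  generalize hw2 : wt r ((z (k + 2) + z' (k + 2)) / 2) = W2 at *
  generalize |(z (k + 1) + z' (k + 1)) / 2| = M at *
  have hd0 : |z' k - z k| = W0 * (|z' k - z k| / W0) := by field_simp
  have hd1 : |z' (k + 1) - z (k + 1)| = W1 * (|z' (k + 1) - z (k + 1)| / W1) := by field_simp
  have hd2 : |z' (k + 2) - z (k + 2)| = W2 * (|z' (k + 2) - z (k + 2)| / W2) := by field_simp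
  have hE : |a' - a| = r * (|a' - a| / r) := by field_simp
  have n0 : 0 ≤ |z' k - z k| / W0 := by positivity
  have n1 : 0 ≤ |z' (k + 1) - z (k + 1)| / W1 := by positivity
  have n2 : 0 ≤ |z' (k + 2) - z (k + 2)| / W2 := by positivity
  have nE : 0 ≤ |a' - a| / r := by positivity
  rw [hd0, hd1, hd2, hE] at hineq
  generalize |z' k - z k| / W0 = D0 at *
  generalize |z' (k + 1) - z (k + 1)| / W1 = D1 at *
  generalize |z' (k + 2) - z (k + 2)| / W2 = D2 at *
  generalize |a' - a| / r = E at *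
  -- multiply by `W2`
  have a1 : W2 * D1 ≤ 73 / 100 * (W2 * D2 + b * (W0 * D0) + r * E) := by
    have h1 : W2 * D1 ≤ 146 / 100 * M * W1 * D1 := mul_le_mul_of_nonneg_right P n1
    nlinarith [h1, hineq]
  have a2 : b * (W0 * D0) ≤ 1 / 1000 * (W2 * D0) := by
    have h2 : b * W0 ≤ 1 / 1000 * W2 := by
      have h3 : b * W0 ≤ r ^ 2 / 1000 * (201 / 100) :=
        mul_le_mul hb1 w0u w0.le (by positivity)
      have h4 : r ^ 2 ≤ r * (1 / 10 ^ 7) := by
        rw [sq]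
        exact mul_le_mul_of_nonneg_left hr1 hr.le
      nlinarith [h3, h4, w2l]
    calc b * (W0 * D0) = (b * W0) * D0 := by ring
      _ ≤ (1 / 1000 * W2) * D0 := mul_le_mul_of_nonneg_right h2 n0
      _ = 1 / 1000 * (W2 * D0) := by ring
  have a3 : 73 / 100 * (r * E) ≤ 21 / 20 * (W2 * E) := by
    have h5 : 73 / 100 * r ≤ 21 / 20 * W2 := by linarith
    calc 73 / 100 * (r * E) = (73 / 100 * r) * E := by ring
      _ ≤ (21 / 20 * W2) * E := mul_le_mul_of_nonneg_right h5 nE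
      _ = 21 / 20 * (W2 * E) := by ring
  have a4 : 0 ≤ W2 * D0 := mul_nonneg w2.le n0
  have a5 : W2 * D1 ≤ W2 * (1 / 1000 * D0 + 73 / 100 * D2 + 21 / 20 * E) := by
    nlinarith [a1, a2, a3, a4]
  exact le_of_mul_le_mul_left a5 w2

theorem pair {a a' b r : ℝ} {n : ℕ} {z z' : ℕ → ℝ} (ht : Thin a b r n z) (ht' : Thin a' b r n z')
    (hs : ∀ k, 1 ≤ k → k ≤ n → 0 < z k * z' k) :
    ∀ k, k < n → |z' (k + 1) - z (k + 1)| ≤
      11 / 10 * |z' 0 - z 0| * ((4 / 5) ^ (n - k) + (1 / 100) ^ (k + 1)) + 9 * |a' - a| / r := by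
  intro k hk
  have hr := ht.par.r0
  set D : ℕ → ℝ := fun j => |z' j - z j| / wt r ((z j + z' j) / 2) with hD
  set E : ℝ := |a' - a| / r with hE
  have hE0 : 0 ≤ E := by positivity
  have B := bound ht.par ht.orb
  have B' := bound ht'.par ht'.orb
  have hM : ∀ j, |(z j + z' j) / 2| ≤ 2 + r ^ 2 / 1000 := by
    intro j
    have h1 := abs_le.mp (B j)
    have h2 := abs_le.mp (B' j)
    rw [abs_le]
    constructor <;> linarith [h1.1, h1.2, h2.1, h2.2]
  have Wp : ∀ j, 0 < wt r ((z j + z' j) / 2) := fun j =>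
    lt_of_lt_of_le (by linarith) (wt_ge ht.par (hM j))
  have Dn : ∀ j, 0 ≤ D j := fun j => div_nonneg (abs_nonneg _) (Wp j).le
  have hper : D (n + 1) = D 0 := by
    simp only [hD, ht.orb.per, ht'.orb.per]
  have key := compare (n := n) (G := D)
    (U := fun j => D 0 * ((4 / 5) ^ (n + 1 - j) + (1 / 100) ^ j) + 4 * E)
    (α := 1 / 1000) (β := 73 / 100) (γ := 21 / 20 * E) (by norm_num) (by norm_num) (by norm_num)
    (by
      have h1 : 0 ≤ D 0 * (4 / 5 : ℝ) ^ (n + 1) := mul_nonneg (Dn 0) (by positivity)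
      simp only [Nat.sub_zero, pow_zero]
      nlinarith [h1, hE0])
    (by
      have h1 : 0 ≤ D 0 * (1 / 100 : ℝ) ^ (n + 1) := mul_nonneg (Dn 0) (by positivity)
      rw [hper]
      simp only [Nat.sub_self, pow_zero]
      nlinarith [h1, hE0])
    (fun j hj => pair_step ht ht' hs j hj)
    (by
      intro j hj
      obtain ⟨i, rfl⟩ : ∃ i, n = j + 1 + i := ⟨n - (j + 1), by omega⟩
      have s1 : j + 1 + i + 1 - j = i + 2 := by omega
      have s2 : j + 1 + i + 1 - (j + 2) = i := by omega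
      have s3 : j + 1 + i + 1 - (j + 1) = i + 1 := by omega
      simp only [s1, s2, s3]
      have h1 : 0 ≤ D 0 * (4 / 5 : ℝ) ^ i := mul_nonneg (Dn 0) (by positivity)
      have h2 : 0 ≤ D 0 * (1 / 100 : ℝ) ^ j := mul_nonneg (Dn 0) (by positivity)
      rw [pow_succ (4 / 5 : ℝ) (i + 1), pow_succ (4 / 5 : ℝ) i, pow_succ (1 / 100 : ℝ) (j + 1),
        pow_succ (1 / 100 : ℝ) j]
      nlinarith [h1, h2, hE0])
    (k + 1) (by omega)
  have s4 : n + 1 - (k + 1) = n - k := by omega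
  simp only [s4] at key
  have hm0 : |(z 0 + z' 0) / 2| ≤ r := by
    have h1 := abs_le.mp ht.small
    have h2 := abs_le.mp ht'.small
    rw [abs_le]
    constructor <;> linarith [h1.1, h1.2, h2.1, h2.2]
  have hw0 := wt_zero ht.par hm0
  have hD0 : D 0 * (19 / 10) ≤ |z' 0 - z 0| := by
    have h1 : D 0 * wt r ((z 0 + z' 0) / 2) = |z' 0 - z 0| := by
      simp only [hD]
      exact div_mul_cancel₀ _ (Wp 0).ne'
    calc D 0 * (19 / 10) ≤ D 0 * wt r ((z 0 + z' 0) / 2) := mul_le_mul_of_nonneg_left hw0 (Dn 0)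
      _ = |z' 0 - z 0| := h1
  have hDk : |z' (k + 1) - z (k + 1)| ≤ D (k + 1) * (201 / 100) := by
    have h1 : D (k + 1) * wt r ((z (k + 1) + z' (k + 1)) / 2) = |z' (k + 1) - z (k + 1)| := by
      simp only [hD]
      exact div_mul_cancel₀ _ (Wp (k + 1)).ne'
    rw [← h1]
    exact mul_le_mul_of_nonneg_left (wt_le ht.par _) (Dn (k + 1))
  have hQ : (0 : ℝ) ≤ (4 / 5) ^ (n - k) + (1 / 100) ^ (k + 1) := by positivity
  have h9 : 9 * |a' - a| / r = 9 * E := by
    rw [hE]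
    ring
  rw [h9]
  generalize (4 / 5 : ℝ) ^ (n - k) + (1 / 100) ^ (k + 1) = Q at *
  have f1 : D 0 * (19 / 10) * Q ≤ |z' 0 - z 0| * Q := mul_le_mul_of_nonneg_right hD0 hQ
  have f2 : 0 ≤ D 0 * Q := mul_nonneg (Dn 0) hQ
  nlinarith [f1, f2, hDk, key, hE0]

end Pool.Agent.helper23.HT
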