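import Mathlib

/-!
# The quadratic sum (module HT-QSum)

`d^2 ≤ 2 (11/10 x p)^2 + 2 q^2` with `p = (4/5)^(n-k) + (1/100)^(k+1)`, and
`p^2 ≤ 11/10 (16/25)^(n-k) + 11 (1/10^4)^(k+1)`. With `i = n - k ≥ 1`, `j = k + 1 ≥ 1`, `i + j = n + 1 ≥ 17`:
`sum |g| p^2 ≤ 33/10 * sum ((3/5)^j + (1/50)^i) (11/10 (16/25)^i + 11 (1/10^4)^j)`, where
`(3/5)^j (16/25)^i = (16/25)^(n+1) (15/16)^j ≤ (16/25)^17 (15/16)^j` (sum `≤ 15 (16/25)^17 ≤ 1/130`),
`(1/50)^i (16/25)^i` has sum `≤ 1/77`, and the other two sums are `≤ 10^(-4)` each. So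
`sum |g| p^2 ≤ 33/10 (11/10 (1/130 + 1/77) + 22/10^4) ≤ 1/10`, hence
`sum |g| d^2 ≤ 2 (121/100) x^2 / 10 + 2 q^2 / 2 ≤ x^2/4 + q^2`.
-/

namespace Pool.Agent.helper23.HT

open Finset

theorem h85_geo (n : ℕ) {r : ℝ} (h0 : 0 ≤ r) (h1 : r < 1) :
    ∑ k ∈ range n, r ^ (k + 1) ≤ r / (1 - r) := by
  have hs : (∑ k ∈ range n, r ^ k) * (1 - r) = 1 - r ^ n := geom_sum_mul_neg r n
  have h2 : ∑ k ∈ range n, r ^ (k + 1) = r * ∑ k ∈ range n, r ^ k := by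
    rw [mul_sum]; exact sum_congr rfl fun k _ => by ring
  rw [h2, le_div_iff₀ (by linarith), mul_assoc, hs]
  have : 0 ≤ r ^ n := pow_nonneg h0 n
  nlinarith

theorem h85_refl (n : ℕ) (r : ℝ) :
    ∑ k ∈ range n, r ^ (n - k) = ∑ k ∈ range n, r ^ (k + 1) := by
  rw [← sum_range_reflect]
  refine sum_congr rfl fun k hk => ?_
  have : k < n := mem_range.1 hk
  congr 1; omega

theorem h85_T {n : ℕ} (hn : 16 ≤ n) :
    ∑ k ∈ range n, ((3 / 5 : ℝ) ^ (k + 1) + (1 / 50) ^ (n - k)) *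
      (11 / 10 * (16 / 25) ^ (n - k) + 11 * (1 / 10 ^ 4) ^ (k + 1)) ≤ 1 / 33 := by
  have hterm : ∀ k ∈ range n, ((3 / 5 : ℝ) ^ (k + 1) + (1 / 50) ^ (n - k)) *
      (11 / 10 * (16 / 25) ^ (n - k) + 11 * (1 / 10 ^ 4) ^ (k + 1)) ≤
      11 / 10 * ((16 / 25) ^ 17 * (15 / 16) ^ (k + 1)) + 11 / 10 * (8 / 625) ^ (n - k) +
      11 * (3 / 50000) ^ (k + 1) + 11 / 50 * (1 / 10 ^ 4) ^ (k + 1) := by
    intro k hk
    have hkn : k < n := mem_range.1 hk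
    have hA : (3 / 5 : ℝ) ^ (k + 1) * (16 / 25) ^ (n - k) ≤ (16 / 25) ^ 17 * (15 / 16) ^ (k + 1) := by
      have e : (3 / 5 : ℝ) ^ (k + 1) * (16 / 25) ^ (n - k)
          = (16 / 25) ^ (n + 1) * (15 / 16) ^ (k + 1) := by
        have e1 : (16 / 25 : ℝ) ^ (n + 1) = (16 / 25) ^ (n - k) * (16 / 25) ^ (k + 1) := by
          rw [← pow_add]; congr 1; omega
        have e0 : (3 / 5 : ℝ) ^ (k + 1) = (16 / 25) ^ (k + 1) * (15 / 16) ^ (k + 1) := by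
          rw [← mul_pow]; norm_num
        rw [e0, e1]; ring
      rw [e]
      refine mul_le_mul_of_nonneg_right ?_ (by positivity)
      exact pow_le_pow_of_le_one (by norm_num) (by norm_num) (by omega)
    have hB : (1 / 50 : ℝ) ^ (n - k) * (16 / 25) ^ (n - k) = (8 / 625) ^ (n - k) := by
      rw [← mul_pow]; norm_num
    have hC : (3 / 5 : ℝ) ^ (k + 1) * (1 / 10 ^ 4) ^ (k + 1) = (3 / 50000) ^ (k + 1) := by
      rw [← mul_pow]; norm_num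
    have hD : (1 / 50 : ℝ) ^ (n - k) ≤ 1 / 50 := by
      calc (1 / 50 : ℝ) ^ (n - k) ≤ (1 / 50) ^ 1 :=
            pow_le_pow_of_le_one (by norm_num) (by norm_num) (by omega)
        _ = 1 / 50 := by norm_num
    have hD' : (1 / 50 : ℝ) ^ (n - k) * (1 / 10 ^ 4) ^ (k + 1) ≤ 1 / 50 * (1 / 10 ^ 4) ^ (k + 1) :=
      mul_le_mul_of_nonneg_right hD (by positivity)
    nlinarith [hA, hB, hC, hD']
  refine (sum_le_sum hterm).trans ?_
  rw [sum_add_distrib, sum_add_distrib, sum_add_distrib, ← mul_sum, ← mul_sum, ← mul_sum,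
    ← mul_sum, ← mul_sum, h85_refl]
  have g1 := h85_geo n (r := 15 / 16) (by norm_num) (by norm_num)
  have g2 := h85_geo n (r := 8 / 625) (by norm_num) (by norm_num)
  have g3 := h85_geo n (r := 3 / 50000) (by norm_num) (by norm_num)
  have g4 := h85_geo n (r := 1 / 10 ^ 4) (by norm_num) (by norm_num)
  norm_num at g1 g2 g3 g4 ⊢
  nlinarith [g1, g2, g3, g4]

theorem qsum {n : ℕ} (hn : 16 ≤ n) {g d : ℕ → ℝ} {x q : ℝ} (hx : 0 ≤ x) (hq : 0 ≤ q)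
    (hg : ∀ k, k < n → |g (k + 1)| ≤ 33 / 10 * ((3 / 5) ^ (k + 1) + (1 / 50) ^ (n - k)))
    (hG : ∑ k ∈ range n, |g (k + 1)| ≤ 1 / 2)
    (hd : ∀ k, k < n → |d (k + 1)| ≤
      11 / 10 * x * ((4 / 5) ^ (n - k) + (1 / 100) ^ (k + 1)) + q) :
    ∑ k ∈ range n, |g (k + 1)| * d (k + 1) ^ 2 ≤ x ^ 2 / 4 + q ^ 2 := by
  have hT := h85_T hn
  set T : ℕ → ℝ := fun k => ((3 / 5 : ℝ) ^ (k + 1) + (1 / 50) ^ (n - k)) *
      (11 / 10 * (16 / 25) ^ (n - k) + 11 * (1 / 10 ^ 4) ^ (k + 1)) with hTdef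
  have hterm : ∀ k ∈ range n, |g (k + 1)| * d (k + 1) ^ 2 ≤
      (242 / 100 * x ^ 2) * (33 / 10) * T k + 2 * q ^ 2 * |g (k + 1)| := by
    intro k hk
    have hkn : k < n := mem_range.1 hk
    have h1 := hg k hkn
    have h2 := hd k hkn
    set p : ℝ := (4 / 5) ^ (n - k) + (1 / 100) ^ (k + 1) with hp
    have hp0 : 0 ≤ p := by positivity
    have hdd : d (k + 1) ^ 2 ≤ 242 / 100 * x ^ 2 * p ^ 2 + 2 * q ^ 2 := by
      have h3 : d (k + 1) ^ 2 = |d (k + 1)| ^ 2 := (sq_abs _).symm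
      have h4 : |d (k + 1)| ^ 2 ≤ (11 / 10 * x * p + q) ^ 2 :=
        pow_le_pow_left₀ (abs_nonneg _) h2 2
      rw [h3]
      refine h4.trans ?_
      nlinarith [sq_nonneg (11 / 10 * x * p - q)]
    have hpp : p ^ 2 ≤ 11 / 10 * (16 / 25) ^ (n - k) + 11 * (1 / 10 ^ 4) ^ (k + 1) := by
      have e1 : (16 / 25 : ℝ) ^ (n - k) = ((4 / 5) ^ (n - k)) ^ 2 := by
        rw [← pow_mul, mul_comm, pow_mul]; norm_num
      have e2 : (1 / 10 ^ 4 : ℝ) ^ (k + 1) = ((1 / 100) ^ (k + 1)) ^ 2 := by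
        rw [← pow_mul, mul_comm, pow_mul]; norm_num
      rw [e1, e2, hp]
      nlinarith [sq_nonneg ((4 / 5 : ℝ) ^ (n - k) - 10 * (1 / 100) ^ (k + 1))]
    have hgn : 0 ≤ |g (k + 1)| := abs_nonneg _
    calc |g (k + 1)| * d (k + 1) ^ 2 ≤ |g (k + 1)| * (242 / 100 * x ^ 2 * p ^ 2 + 2 * q ^ 2) :=
          mul_le_mul_of_nonneg_left hdd hgn
      _ = (242 / 100 * x ^ 2) * (|g (k + 1)| * p ^ 2) + 2 * q ^ 2 * |g (k + 1)| := by ring
      _ ≤ (242 / 100 * x ^ 2) * (33 / 10 * T k) + 2 * q ^ 2 * |g (k + 1)| := by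
          have h5 : |g (k + 1)| * p ^ 2 ≤ 33 / 10 * T k := by
            have h6 : |g (k + 1)| * p ^ 2 ≤
                (33 / 10 * ((3 / 5) ^ (k + 1) + (1 / 50) ^ (n - k))) *
                (11 / 10 * (16 / 25) ^ (n - k) + 11 * (1 / 10 ^ 4) ^ (k + 1)) :=
              mul_le_mul h1 hpp (by positivity) (by positivity)
            refine h6.trans (le_of_eq ?_)
            simp only [hTdef]
            ring
          have h7 : 0 ≤ 242 / 100 * x ^ 2 := by positivity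
          have := mul_le_mul_of_nonneg_left h5 h7
          linarith
      _ = (242 / 100 * x ^ 2) * (33 / 10) * T k + 2 * q ^ 2 * |g (k + 1)| := by ring
  refine (sum_le_sum hterm).trans ?_
  rw [sum_add_distrib, ← mul_sum, ← mul_sum]
  have h8 : (242 / 100 * x ^ 2) * (33 / 10) * ∑ k ∈ range n, T k ≤
      (242 / 100 * x ^ 2) * (33 / 10) * (1 / 33) :=
    mul_le_mul_of_nonneg_left hT (by positivity)
  have h9 : 2 * q ^ 2 * ∑ k ∈ range n, |g (k + 1)| ≤ 2 * q ^ 2 * (1 / 2) :=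
    mul_le_mul_of_nonneg_left hG (by positivity)
  nlinarith [sq_nonneg x]

end Pool.Agent.helper23.HT
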