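import Pool.Agent.helper23.HT.Grow
import Pool.Agent.helper23.HT.AdjE
import Pool.Agent.helper23.HT.AdjBound
import Pool.Agent.helper23.HT.AdjSum
import Pool.Agent.helper23.HT.Pair
import Pool.Agent.helper23.HT.QSum
import Pool.Agent.helper23.HS.Diff

/-!
# The window estimate for thin strips (helper23)
-/

namespace Pool.Agent.helper23.HT

open Pool.Agent.helper23.HS Finset

theorem adj {a b r : ℝ} {n : ℕ} {z : ℕ → ℝ} (ht : Thin a b r n z) :
    ∃ g : ℕ → ℝ, g 0 = 1 ∧ g (n + 1) = 1 ∧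
      (∀ k, k < n → g k + 2 * z (k + 1) * g (k + 1) - b * g (k + 2) = 0) ∧
      (∀ k, k < n → |g (k + 1)| ≤ 33 / 10 * ((3 / 5) ^ (k + 1) + (1 / 50) ^ (n - k))) ∧
      ∑ k ∈ range n, |g (k + 1)| ≤ 1 / 2 ∧
      (g n + 2 * z 0 - b * g 1) * sol b (fun k => 2 * z k) 0 1 (n + 1)
        = chi b (fun k => 2 * z k) n := by
  have hv : sol b (fun k => 2 * z k) 0 1 (n + 1) ≠ 0 := by
    have h1 := grow ht
    intro h0
    rw [h0, abs_zero] at h1
    have h2 : (0 : ℝ) < (9 / 5) ^ n := by positivity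
    linarith
  obtain ⟨g, g0, g1, hg, hφ⟩ := adjoint_exists hv
  have hb := adj_bound ht g0 g1 hg
  refine ⟨g, g0, g1, hg, ?_, adj_sum ht g0 g1 hg hb, hφ⟩
  intro k hk
  have h := hb (k + 1) (by omega)
  rwa [show n + 1 - (k + 1) = n - k by omega] at h

theorem phi_le {a b r : ℝ} {n : ℕ} {z : ℕ → ℝ} {φ : ℝ} (ht : Thin a b r n z)
    (h : |chi b (fun k => 2 * z k) n| ≤ 4)
    (hφ : φ * sol b (fun k => 2 * z k) 0 1 (n + 1) = chi b (fun k => 2 * z k) n) :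
    |φ| ≤ 4 * (5 / 9) ^ n := by
  have h1 := grow ht
  have h2 : |φ| * |sol b (fun k => 2 * z k) 0 1 (n + 1)| ≤ 4 := by rw [← abs_mul, hφ]; exact h
  have h3 : |φ| * (9 / 5) ^ n ≤ 4 := (mul_le_mul_of_nonneg_left h1 (abs_nonneg _)).trans h2
  have h4 : ((5 : ℝ) / 9) ^ n = ((9 / 5) ^ n)⁻¹ := by
    rw [← inv_pow]; norm_num
  rw [h4, ← div_eq_mul_inv, le_div_iff₀ (by positivity)]
  exact h3

theorem quad {a a' b r : ℝ} {n : ℕ} {z z' g : ℕ → ℝ} (ht : Thin a b r n z)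
    (ht' : Thin a' b r n z') (hs : ∀ k, 1 ≤ k → k ≤ n → 0 < z k * z' k)
    (hg : ∀ k, k < n → |g (k + 1)| ≤ 33 / 10 * ((3 / 5) ^ (k + 1) + (1 / 50) ^ (n - k)))
    (hG : ∑ k ∈ range n, |g (k + 1)| ≤ 1 / 2) :
    |∑ k ∈ range n, g (k + 1) * (z' (k + 1) - z (k + 1)) ^ 2|
      ≤ |z' 0 - z 0| ^ 2 / 4 + (9 * |a' - a| / r) ^ 2 := by
  have hr := ht.par.r0
  have hq := qsum (d := fun k => z' k - z k) (n_large ht) (abs_nonneg (z' 0 - z 0))
    (by positivity : 0 ≤ 9 * |a' - a| / r) hg hG (fun k hk => pair ht ht' hs k hk)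
  refine le_trans (Finset.abs_sum_le_sum_abs _ _) (le_trans (le_of_eq ?_) hq)
  apply Finset.sum_congr rfl
  intro k _
  rw [abs_mul, abs_pow, sq_abs]

theorem one_side {a a' b r : ℝ} {n : ℕ} {z z' : ℕ → ℝ} (ht : Thin a b r n z)
    (ht' : Thin a' b r n z') (hs : ∀ k, 1 ≤ k → k ≤ n → 0 < z k * z' k)
    (h' : |chi b (fun k => 2 * z' k) n| ≤ 4) (hle : a ≤ a') :
    a' - a ≤ 64 / 3 * (25 / 81) ^ n := by
  have hr := ht.par.r0
  obtain ⟨g, g0, g1, hg, hgb, hG, hφ⟩ := adj ht'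
  have hφ' := phi_le ht' h' hφ
  have hid := ident ht'.orb ht.orb g0 g1 hg
  have hsum := quad ht' ht (fun k h1 h2 => by rw [mul_comm]; exact hs k h1 h2) hgb hG
  set e := a' - a with he
  have he0 : 0 ≤ e := by rw [he]; linarith
  have he1 : e ≤ r ^ 2 / 500 := by
    have h1 := (abs_le.1 ht.par.ha).1
    have h2 := (abs_le.1 ht'.par.ha).2
    rw [he]; linarith
  set x := |z 0 - z' 0| with hx
  have hx0 : 0 ≤ x := abs_nonneg _
  set Q := ∑ k ∈ range n, g (k + 1) * (z (k + 1) - z' (k + 1)) ^ 2 with hQ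
  have hea : |a - a'| = e := by rw [abs_sub_comm]; exact abs_of_nonneg he0
  rw [hea] at hsum
  have hS : 1 / 2 ≤ 1 + ∑ k ∈ range n, g (k + 1) := by
    have h1 : |∑ k ∈ range n, g (k + 1)| ≤ 1 / 2 := (Finset.abs_sum_le_sum_abs _ _).trans hG
    have := (abs_le.1 h1).1
    linarith
  set S := 1 + ∑ k ∈ range n, g (k + 1) with hSd
  set φ := g n + 2 * z' 0 - b * g 1 with hφd
  have hid' : φ * (z 0 - z' 0) + (z 0 - z' 0) ^ 2 + Q = (a - a') * S := hid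
  have hxsq : (z 0 - z' 0) ^ 2 = x ^ 2 := by rw [hx, sq_abs]
  have h5 : -(φ * (z 0 - z' 0)) ≤ 4 * (5 / 9) ^ n * x := by
    calc -(φ * (z 0 - z' 0)) ≤ |φ * (z 0 - z' 0)| := neg_le_abs _
      _ = |φ| * x := by rw [abs_mul]
      _ ≤ 4 * (5 / 9) ^ n * x := by gcongr
  have h6 := (abs_le.1 hsum).1
  set η : ℝ := 4 * (5 / 9) ^ n with hη
  have h7 : e / 2 ≤ e * S := by nlinarith
  have h8 : e * S = -(φ * (z 0 - z' 0)) - x ^ 2 - Q := by
    rw [← hxsq]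
    have : e * S = -((a - a') * S) := by rw [he]; ring
    rw [this, ← hid']
    ring
  have h9 : (9 * e / r) ^ 2 ≤ e / 4 := by
    rw [div_pow, div_le_iff₀ (by positivity)]
    have : e * e ≤ e * (r ^ 2 / 500) := mul_le_mul_of_nonneg_left he1 he0
    nlinarith
  have h10 : e / 4 ≤ η * x - 3 / 4 * x ^ 2 := by linarith
  have h11 : η * x - 3 / 4 * x ^ 2 ≤ η ^ 2 / 3 := by nlinarith [sq_nonneg (3 * x - 2 * η)]
  have h14 : η ^ 2 = 16 * (25 / 81) ^ n := by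
    rw [hη, mul_pow, ← pow_mul, mul_comm n 2, pow_mul]; norm_num
  rw [h14] at h11
  linarith

theorem window {a a' b r : ℝ} {n : ℕ} {z z' : ℕ → ℝ} (ht : Thin a b r n z)
    (ht' : Thin a' b r n z') (hs : ∀ k, 1 ≤ k → k ≤ n → 0 < z k * z' k)
    (h : |chi b (fun k => 2 * z k) n| ≤ 4) (h' : |chi b (fun k => 2 * z' k) n| ≤ 4) :
    |a' - a| ≤ 64 / 3 * (25 / 81) ^ n := by
  rcases le_total a a' with hle | hle
  · rw [abs_of_nonneg (by linarith)]
    exact one_side ht ht' hs h' hle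
  · rw [abs_sub_comm, abs_of_nonneg (by linarith)]
    exact one_side ht' ht (fun k h1 h2 => by rw [mul_comm]; exact hs k h1 h2) h hle

theorem unique {a b r : ℝ} {n : ℕ} {z z' : ℕ → ℝ} (ht : Thin a b r n z)
    (ht' : Thin a b r n z') (hs : ∀ k, 1 ≤ k → k ≤ n → 0 < z k * z' k)
    (h : 0 < chi b (fun k => 2 * z k) n) (h' : 0 < chi b (fun k => 2 * z' k) n) :
    ∀ k, k ≤ n → z k = z' k := by
  have hs' : ∀ k, 1 ≤ k → k ≤ n → 0 < z' k * z k :=
    fun k h1 h2 => by rw [mul_comm]; exact hs k h1 h2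
  obtain ⟨g, g0, g1, hg, hgb, hG, hφ⟩ := adj ht
  obtain ⟨g', g0', g1', hg', hgb', hG', hφ'⟩ := adj ht'
  have hid := ident ht.orb ht'.orb g0 g1 hg
  have hid' := ident ht'.orb ht.orb g0' g1' hg'
  have hv := signs ht ht' hs
  have hsum := (abs_le.1 (quad ht ht' hs hgb hG)).1
  have hsum' := (abs_le.1 (quad ht' ht hs' hgb' hG')).1
  have hp := pair ht ht' hs
  rw [abs_sub_comm (z 0) (z' 0)] at hsum'
  simp only [sub_self, abs_zero, mul_zero, zero_div, ne_eq, OfNat.ofNat_ne_zero,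
    not_false_eq_true, zero_pow, add_zero, sq_abs] at hsum hsum' hp
  set x := z' 0 - z 0 with hx
  set φ := g n + 2 * z 0 - b * g 1 with hφd
  set φ' := g' n + 2 * z' 0 - b * g' 1 with hφd'
  set Q := ∑ k ∈ range n, g (k + 1) * (z' (k + 1) - z (k + 1)) ^ 2 with hQ
  set Q' := ∑ k ∈ range n, g' (k + 1) * (z (k + 1) - z' (k + 1)) ^ 2 with hQ'
  have e1 : φ * x + x ^ 2 + Q = 0 := by
    have : φ * x + x ^ 2 + Q = (a - a) * (1 + ∑ k ∈ range n, g (k + 1)) := hid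
    rw [this]; ring
  have e2 : φ' * (-x) + x ^ 2 + Q' = 0 := by
    have h1 : φ' * (z 0 - z' 0) + (z 0 - z' 0) ^ 2 + Q'
      = (a - a) * (1 + ∑ k ∈ range n, g' (k + 1)) := hid'
    have h2 : z 0 - z' 0 = -x := by rw [hx]; ring
    rw [h2] at h1
    nlinarith
  have f1 : φ * x ≤ -(3 / 4) * x ^ 2 := by linarith
  have f2 : 3 / 4 * x ^ 2 ≤ φ' * x := by linarith
  have hpp : 0 < φ * φ' := by
    set v := sol b (fun k => 2 * z k) 0 1 (n + 1)
    set v' := sol b (fun k => 2 * z' k) 0 1 (n + 1)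
    have h1 : 0 < (φ * v) * (φ' * v') := by rw [hφ, hφ']; exact mul_pos h h'
    have h2 : (φ * v) * (φ' * v') = (φ * φ') * (v * v') := by ring
    rw [h2] at h1
    exact (mul_pos_iff_of_pos_right hv).1 h1
  have hx0 : x = 0 := by
    by_contra hne
    have hx2 : 0 < x ^ 2 := by positivity
    have h3 : (φ * x) * (φ' * x) < 0 := by
      apply mul_neg_of_neg_of_pos <;> nlinarith
    have h4 : (φ * x) * (φ' * x) = (φ * φ') * x ^ 2 := by ring
    rw [h4] at h3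
    exact absurd (mul_pos hpp hx2) (not_lt.2 h3.le)
  intro k hk
  rcases Nat.eq_zero_or_pos k with rfl | hk0
  · linarith
  · obtain ⟨j, rfl⟩ : ∃ j, k = j + 1 := ⟨k - 1, by omega⟩
    have := hp j (by omega)
    rw [hx0, abs_zero, mul_zero, zero_mul] at this
    have h5 := abs_eq_zero.1 (le_antisymm this (abs_nonneg _))
    linarith

end Pool.Agent.helper23.HT
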