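import Pool.Agent.helper23.HS.Defs

/-!
# Thin strips near the parameter (2, 0): definitions
-/

namespace Pool.Agent.helper23.HT

open Pool.Agent.helper23.HS

/-- The parameters: `a` close to `2`, `b` small, relative to the strip `|z| < r`. -/
structure Par (a b r : ℝ) : Prop where
  r0 : 0 < r
  r1 : r ≤ 1 / 10 ^ 7
  ha : |a - 2| ≤ r ^ 2 / 1000
  b0 : 0 < b
  b1 : b ≤ r ^ 2 / 1000

/-- `z` is the scaled orbit of a point of period `n + 1` with one visit to the strip, at time `0`. -/
structure Thin (a b r : ℝ) (n : ℕ) (z : ℕ → ℝ) : Prop where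
  par : Par a b r
  orb : Orb a b (2 * r) n z
  small : |z 0| ≤ r

/-- The weight. -/
noncomputable def wt (r x : ℝ) : ℝ := Real.sqrt ((2 + r ^ 2 / 8) ^ 2 - x ^ 2)

end Pool.Agent.helper23.HT
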