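import Pool.Agent.helper23.HS.Dim

/-!
# Sets covered infinitely often by small windows, second version (module HT-Dim)

Same proof as HS/Dim.lean with `(25/81)^n` in place of `(1/4)^n`: `2 * (25/81)^(3/5) < 1` because
`32 * 25^3 < 81^3` (`32 * 15625 = 500000 < 531441`).
-/

namespace Pool.Agent.helper23.HT

open MeasureTheory Set Filter Topology
open scoped ENNReal NNReal

lemma win_diam {T : List Bool → Set ℝ} {C : ℝ}
    (hT : ∀ w, ∀ x ∈ T w, ∀ y ∈ T w, |x - y| ≤ C * (25 / 81) ^ w.length)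
    (N : ℕ) (i : Σ k : ℕ, (Fin (N + k) → Bool)) :
    Metric.ediam (HS.win T univ N i) ≤
      ENNReal.ofReal C * ENNReal.ofReal (25 / 81) ^ (N + i.1) := by
  apply Metric.ediam_le
  rintro x ⟨hx, -⟩ y ⟨hy, -⟩
  have h1 := hT _ x hx y hy
  rw [List.length_ofFn] at h1
  rw [edist_dist, Real.dist_eq, ← ENNReal.ofReal_pow (by norm_num),
    ← ENNReal.ofReal_mul' (by positivity)]
  exact ENNReal.ofReal_le_ofReal h1

lemma win_tsum_le (A ρ : ℝ≥0∞) (s : ℝ) (hs : 0 ≤ s) (N : ℕ) :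
    ∑' i : (Σ k : ℕ, (Fin (N + k) → Bool)), (A * ρ ^ (N + i.1)) ^ s =
      A ^ s * ((2 * ρ ^ s) ^ N * ∑' k : ℕ, (2 * ρ ^ s) ^ k) := by
  rw [ENNReal.tsum_sigma', ← ENNReal.tsum_mul_left, ← ENNReal.tsum_mul_left]
  apply tsum_congr
  intro k
  show ∑' _b : (Fin (N + k) → Bool), (A * ρ ^ (N + k)) ^ s = _
  rw [tsum_fintype, Finset.sum_const, Finset.card_univ]
  have h1 : Fintype.card (Fin (N + k) → Bool) = 2 ^ (N + k) := by simp
  rw [h1, nsmul_eq_mul, ENNReal.mul_rpow_of_nonneg _ _ hs]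
  have h2 : (ρ ^ (N + k)) ^ s = (ρ ^ s) ^ (N + k) := by
    rw [← ENNReal.rpow_natCast, ← ENNReal.rpow_natCast, ← ENNReal.rpow_mul, ← ENNReal.rpow_mul,
      mul_comm]
  rw [h2, ← pow_add, mul_pow]
  push_cast
  ring

lemma ratio_lt_one {s : ℝ} (hs : 3 / 5 < s) : 2 * ENNReal.ofReal (25 / 81) ^ s < 1 := by
  have h1 : ENNReal.ofReal (25 / 81) ^ s = ENNReal.ofReal ((25 / 81) ^ s) :=
    ENNReal.ofReal_rpow_of_pos (by norm_num)
  have h2 : ((25 : ℝ) / 81) ^ s < 1 / 2 := by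
    have h3 : ((25 : ℝ) / 81) ^ s < ((25 : ℝ) / 81) ^ ((3 : ℝ) / 5) :=
      Real.rpow_lt_rpow_of_exponent_gt (by norm_num) (by norm_num) hs
    have h4 : ((25 : ℝ) / 81) ^ ((3 : ℝ) / 5) < 1 / 2 := by
      have hp : (0 : ℝ) ≤ ((25 : ℝ) / 81) ^ ((3 : ℝ) / 5) := Real.rpow_nonneg (by norm_num) _
      have h5 : (((25 : ℝ) / 81) ^ ((3 : ℝ) / 5)) ^ 5 = ((25 : ℝ) / 81) ^ 3 := by
        rw [← Real.rpow_natCast, ← Real.rpow_mul (by norm_num)]
        rw [show ((3 : ℝ) / 5) * ((5 : ℕ) : ℝ) = ((3 : ℕ) : ℝ) by norm_num, Real.rpow_natCast]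
      by_contra hcon
      push Not at hcon
      have h6 : ((1 : ℝ) / 2) ^ 5 ≤ (((25 : ℝ) / 81) ^ ((3 : ℝ) / 5)) ^ 5 :=
        pow_le_pow_left₀ (by norm_num) hcon 5
      rw [h5] at h6
      norm_num at h6
    linarith
  rw [h1, show (2 : ℝ≥0∞) = ENNReal.ofReal 2 by simp, ← ENNReal.ofReal_mul (by norm_num),
    show (1 : ℝ≥0∞) = ENNReal.ofReal 1 by simp]
  exact (ENNReal.ofReal_lt_ofReal_iff (by norm_num)).mpr (by linarith)

lemma measure_zero {T : List Bool → Set ℝ} {C : ℝ}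
    (hT : ∀ w, ∀ x ∈ T w, ∀ y ∈ T w, |x - y| ≤ C * (25 / 81) ^ w.length)
    {s : ℝ} (hs : 3 / 5 < s) :
    μH[s] {a | {w | a ∈ T w}.Infinite} = 0 := by
  have hs0 : 0 ≤ s := by linarith
  set ρ : ℝ≥0∞ := ENNReal.ofReal (25 / 81) with hρ
  set q : ℝ≥0∞ := 2 * ρ ^ s with hq
  have hq1 : q < 1 := ratio_lt_one hs
  set A : ℝ≥0∞ := ENNReal.ofReal C with hA
  have hA1 : A ≠ ∞ := ENNReal.ofReal_ne_top
  set r : ℕ → ℝ≥0∞ := fun N => A * ρ ^ N with hr
  have h4 : ρ < 1 := by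
    rw [hρ, show (1 : ℝ≥0∞) = ENNReal.ofReal 1 by simp]
    exact (ENNReal.ofReal_lt_ofReal_iff (by norm_num)).mpr (by norm_num)
  have hr0 : Tendsto r atTop (𝓝 0) := by
    have h := ENNReal.Tendsto.const_mul (ENNReal.tendsto_pow_atTop_nhds_zero_of_lt_one h4)
      (Or.inr hA1) (a := A)
    rw [mul_zero] at h
    exact h
  have h5 := Measure.hausdorffMeasure_le_liminf_tsum (ι := fun N => Σ k : ℕ, (Fin (N + k) → Bool))
    s {a | {w | a ∈ T w}.Infinite} (l := atTop) r hr0 (fun N i => HS.win T univ N i)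
    (Eventually.of_forall (fun N i => by
      refine (win_diam hT N i).trans ?_
      rw [hr]
      show A * _ ≤ A * _
      exact mul_le_mul_right (pow_le_pow_right_of_le_one' h4.le (Nat.le_add_right N i.1)) A))
    (Eventually.of_forall (fun N => by
      have h := HS.win_cover T univ N
      rwa [inter_univ] at h))
  have h6 : Tendsto (fun N : ℕ => A ^ s * (q ^ N * ∑' k : ℕ, q ^ k)) atTop (𝓝 0) := by
    have h7 : ∑' k : ℕ, q ^ k ≠ ∞ := by
      rw [ENNReal.tsum_geometric]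
      rw [ENNReal.inv_ne_top]
      exact (tsub_pos_of_lt hq1).ne'
    have h8 := ENNReal.Tendsto.mul_const (ENNReal.tendsto_pow_atTop_nhds_zero_of_lt_one hq1)
      (Or.inr h7) (b := ∑' k : ℕ, q ^ k)
    rw [zero_mul] at h8
    have h9 := ENNReal.Tendsto.const_mul h8 (Or.inr (ENNReal.rpow_ne_top_of_nonneg hs0 hA1))
      (a := A ^ s)
    rw [mul_zero] at h9
    exact h9
  have h7 : Tendsto (fun N => ∑' i, Metric.ediam (HS.win T univ N i) ^ s) atTop (𝓝 0) := by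
    refine tendsto_of_tendsto_of_tendsto_of_le_of_le tendsto_const_nhds h6 (fun _ => bot_le) ?_
    intro N
    show _ ≤ A ^ s * (q ^ N * ∑' k : ℕ, q ^ k)
    rw [← win_tsum_le A ρ s hs0 N]
    apply ENNReal.tsum_le_tsum
    intro i
    exact ENNReal.rpow_le_rpow (win_diam hT N i) hs0
  rw [h7.liminf_eq] at h5
  exact le_antisymm h5 bot_le

lemma coe_three_fifths : ((3 / 5 : ℝ≥0) : ℝ≥0∞) = 3 / 5 := by
  rw [ENNReal.coe_div (by norm_num)]; simp

theorem dimH_io {T : List Bool → Set ℝ} {C : ℝ}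
    (hT : ∀ w, ∀ x ∈ T w, ∀ y ∈ T w, |x - y| ≤ C * (25 / 81) ^ w.length) :
    dimH {a | {w | a ∈ T w}.Infinite} ≤ 3 / 5 := by
  set E : Set ℝ := {a | {w | a ∈ T w}.Infinite} with hE
  have hmain : ∀ s : ℝ≥0, (3 / 5 : ℝ≥0) < s → dimH E ≤ s := by
    intro s hs
    have hs' : (3 : ℝ) / 5 < (s : ℝ) := by
      have : ((3 / 5 : ℝ≥0) : ℝ) < (s : ℝ) := NNReal.coe_lt_coe.mpr hs
      simpa using this
    apply dimH_le_of_hausdorffMeasure_ne_top
    rw [measure_zero hT hs']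
    exact ENNReal.zero_ne_top
  apply le_of_forall_gt_imp_ge_of_dense
  intro b hb
  obtain ⟨s, hs1, hs2⟩ := ENNReal.lt_iff_exists_nnreal_btwn.mp hb
  rw [← coe_three_fifths] at hs1
  exact (hmain s (ENNReal.coe_lt_coe.mp hs1)).trans hs2.le

theorem volume_zero {S : Set ℝ} (h : dimH S ≤ 3 / 5) : volume S = 0 := by
  have h1 : dimH S < ((1 : ℝ≥0) : ℝ≥0∞) := by
    refine lt_of_le_of_lt h ?_
    rw [← coe_three_fifths]
    refine ENNReal.coe_lt_coe.mpr ?_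
    rw [div_lt_one (by norm_num)]
    norm_num
  have h2 := hausdorffMeasure_of_dimH_lt h1
  rw [NNReal.coe_one, hausdorffMeasure_real] at h2
  exact h2

end Pool.Agent.helper23.HT
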