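import Pool.Agent.helper23.HT.Basic
import Pool.Agent.helper23.HT.Start
import Pool.Agent.helper23.HS.Adj

/-!
# Growth in the weight (module HT-Grow)

grow_gen, step from `k` to `k + 1` (`k + 1 ≤ n`): with `w k = wt r (z k)`,
`|x (k+2)| w (k+1) ≥ 2 |z (k+1)| |x (k+1)| w (k+1) - b |x k| w (k+1)`. By `wt_step`
`2 |z (k+1)| w (k+1) ≥ (200/107) w (k+2)`. By the induction hypothesis
`b |x k| w (k+1) ≤ b (5/9) |x (k+1)| w k ≤ (r^2/1000) (5/9) (201/100) |x (k+1)|` and `w (k+2) ≥ 7/10 r`,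
so this is at most `(1/100) w (k+2) |x (k+1)|`; `200/107 - 1/100 ≥ 9/5`.

grow: apply grow_gen to `x = sol b (2 z) 0 1` (`x 0 = 0`, use `bound` for `hz`); by induction from
`k = 1`: `(9/5)^k * w (k+1) ≤ |x (k+1)| * w 1` (all `w` positive by `wt_ge`), so for `k = n`,
`w (n+1) = wt r (z 0) ≥ 19/10` (`wt_zero`), `w 1 ≤ 23/10 r ≤ 19/10`.

signs: `b |x k| ≤ b (5/9) |x (k+1)| w k / w (k+1) ≤ r |x (k+1)| / 100 < 2 |z (k+1)| |x (k+1)|`, so the sign
of `x (k+2)` is that of `- z (k+1) x (k+1)` (as `step_sign`, `sign` in HS/Adj.lean).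
-/

namespace Pool.Agent.helper23.HT

open Pool.Agent.helper23.HS

private theorem wt_nonneg (r x : ℝ) : 0 ≤ wt r x := Real.sqrt_nonneg _

private theorem b_small {a b r w : ℝ} (h : Par a b r) (hw : 7 / 10 * r ≤ w) :
    b * (5 / 9 * (201 / 100)) ≤ 1 / 100 * w := by
  have h0 := h.r0
  have h1 := h.r1
  have h2 := h.b1
  have h3 : r ^ 2 ≤ r * (1 / 10 ^ 7) := by
    rw [pow_two]
    exact mul_le_mul_of_nonneg_left h1 h0.le
  linarith

theorem grow_gen {a b r : ℝ} (h : Par a b r) {z x : ℕ → ℝ} {n : ℕ}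
    (hz : ∀ k, |z k| ≤ 2 + r ^ 2 / 1000)
    (he : ∀ k, z (k + 2) = a - z (k + 1) ^ 2 + b * z k)
    (ho : ∀ k, 1 ≤ k → k ≤ n → r ≤ |z k|)
    (hx : ∀ k, x (k + 2) = -(2 * z (k + 1)) * x (k + 1) + b * x k)
    (h0 : 9 / 5 * |x 0| * wt r (z 1) ≤ |x 1| * wt r (z 0)) :
    ∀ k, k ≤ n → 9 / 5 * |x k| * wt r (z (k + 1)) ≤ |x (k + 1)| * wt r (z k) := by
  intro k
  induction k with
  | zero => intro _; exact h0
  | succ k ih =>
    intro hk
    have ih' := ih (by omega)
    have hr := ho (k + 1) (by omega) hk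
    have hstep := wt_step h (hz (k + 1)) (hz k) hr
    rw [← he k] at hstep
    have hw2 := wt_ge h (hz (k + 2))
    have hwk := wt_le h (z k)
    have hb0 := h.b0
    have hsm := b_small h hw2
    have w1 := wt_nonneg r (z (k + 1))
    have w2 := wt_nonneg r (z (k + 2))
    have x1 := abs_nonneg (x (k + 1))
    have x0 := abs_nonneg (x k)
    have h3 : 2 * |z (k + 1)| * |x (k + 1)| - b * |x k| ≤ |x (k + 2)| := by
      rw [hx k]
      have h := abs_sub_abs_le_abs_sub (-(2 * z (k + 1)) * x (k + 1)) (-(b * x k))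
      rw [abs_neg, abs_mul, abs_neg, abs_mul, abs_mul, abs_of_pos hb0, sub_neg_eq_add,
        abs_of_pos (by norm_num : (0 : ℝ) < 2)] at h
      exact h
    have h4 : (2 * |z (k + 1)| * |x (k + 1)| - b * |x k|) * wt r (z (k + 1))
        ≤ |x (k + 2)| * wt r (z (k + 1)) := mul_le_mul_of_nonneg_right h3 w1
    have h5 : wt r (z (k + 2)) * |x (k + 1)|
        ≤ 107 / 100 * |z (k + 1)| * wt r (z (k + 1)) * |x (k + 1)| :=
      mul_le_mul_of_nonneg_right hstep x1
    have h6 : |x (k + 1)| * wt r (z k) ≤ |x (k + 1)| * (201 / 100) :=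
      mul_le_mul_of_nonneg_left hwk x1
    have h7 : |x k| * wt r (z (k + 1)) ≤ 5 / 9 * (201 / 100) * |x (k + 1)| := by linarith
    have h8 : b * (|x k| * wt r (z (k + 1))) ≤ b * (5 / 9 * (201 / 100) * |x (k + 1)|) :=
      mul_le_mul_of_nonneg_left h7 hb0.le
    have h9 : b * (5 / 9 * (201 / 100)) * |x (k + 1)| ≤ 1 / 100 * wt r (z (k + 2)) * |x (k + 1)| :=
      mul_le_mul_of_nonneg_right hsm x1
    have h10 : 0 ≤ wt r (z (k + 2)) * |x (k + 1)| := mul_nonneg w2 x1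
    have e1 : k + 1 + 1 = k + 2 := rfl
    rw [e1]
    linarith

private theorem sol_gen {a b r : ℝ} {n : ℕ} {z : ℕ → ℝ} (ht : Thin a b r n z) :
    ∀ k, k ≤ n → 9 / 5 * |sol b (fun k => 2 * z k) 0 1 k| * wt r (z (k + 1))
      ≤ |sol b (fun k => 2 * z k) 0 1 (k + 1)| * wt r (z k) := by
  have hz := bound ht.par ht.orb
  refine grow_gen ht.par hz ?_ ?_ ?_ ?_
  · intro k
    have := ht.orb.eqn k
    linarith
  · intro k h1 h2
    have := ht.orb.out k h1 h2
    rw [abs_mul, abs_of_pos (by norm_num : (0 : ℝ) < 2)] at this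
    linarith
  · intro k
    rfl
  · have e : sol b (fun k => 2 * z k) 0 1 0 = 0 := rfl
    rw [e, abs_zero, mul_zero, zero_mul]
    exact mul_nonneg (abs_nonneg _) (wt_nonneg _ _)

private theorem wt_pos {a b r : ℝ} {n : ℕ} {z : ℕ → ℝ} (ht : Thin a b r n z) (k : ℕ) :
    0 < wt r (z k) := by
  have h1 := wt_ge ht.par (bound ht.par ht.orb k)
  have h2 := ht.par.r0
  linarith

private theorem grow_all {a b r : ℝ} {n : ℕ} {z : ℕ → ℝ} (ht : Thin a b r n z) :
    ∀ k, k ≤ n → (9 / 5) ^ k * wt r (z (k + 1))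
      ≤ |sol b (fun k => 2 * z k) 0 1 (k + 1)| * wt r (z 1) := by
  intro k
  induction k with
  | zero =>
    intro _
    simp [sol]
  | succ k ih =>
    intro hk
    have h1 := ih (by omega)
    have h2 := sol_gen ht (k + 1) hk
    have w1 := wt_pos ht (k + 1)
    have w2 := wt_pos ht (k + 1 + 1)
    have w0 := wt_pos ht 1
    have h3 : (9 / 5) ^ k * wt r (z (k + 1)) * (9 / 5 * wt r (z (k + 1 + 1)))
        ≤ |sol b (fun k => 2 * z k) 0 1 (k + 1)| * wt r (z 1) * (9 / 5 * wt r (z (k + 1 + 1))) :=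
      mul_le_mul_of_nonneg_right h1 (by positivity)
    have h4 : 9 / 5 * |sol b (fun k => 2 * z k) 0 1 (k + 1)| * wt r (z (k + 1 + 1)) * wt r (z 1)
        ≤ |sol b (fun k => 2 * z k) 0 1 (k + 1 + 1)| * wt r (z (k + 1)) * wt r (z 1) :=
      mul_le_mul_of_nonneg_right h2 w0.le
    have h5 : (9 / 5) ^ (k + 1) * wt r (z (k + 1 + 1)) * wt r (z (k + 1))
        ≤ |sol b (fun k => 2 * z k) 0 1 (k + 1 + 1)| * wt r (z 1) * wt r (z (k + 1)) := by
      rw [pow_succ]
      linarith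
    exact le_of_mul_le_mul_right h5 w1

theorem grow {a b r : ℝ} {n : ℕ} {z : ℕ → ℝ} (ht : Thin a b r n z) :
    (9 / 5) ^ n ≤ |sol b (fun k => 2 * z k) 0 1 (n + 1)| := by
  have h1 := grow_all ht n le_rfl
  rw [ht.orb.per] at h1
  have h2 := wt_zero ht.par ht.small
  have h3 := wt_one ht
  have h4 : wt r (z 1) ≤ 19 / 10 := by
    have := ht.par.r1
    linarith
  have h5 : (9 / 5 : ℝ) ^ n * (19 / 10) ≤ (9 / 5) ^ n * wt r (z 0) :=
    mul_le_mul_of_nonneg_left h2 (by positivity)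
  have h6 : |sol b (fun k => 2 * z k) 0 1 (n + 1)| * wt r (z 1)
      ≤ |sol b (fun k => 2 * z k) 0 1 (n + 1)| * (19 / 10) :=
    mul_le_mul_of_nonneg_left h4 (abs_nonneg _)
  have h7 : (9 / 5 : ℝ) ^ n * (19 / 10) ≤ |sol b (fun k => 2 * z k) 0 1 (n + 1)| * (19 / 10) :=
    h5.trans (h1.trans h6)
  exact le_of_mul_le_mul_right h7 (by norm_num)

/-- the sign of the next term is the sign of the dominating term -/
private theorem step_sign {a b r : ℝ} {n : ℕ} {z : ℕ → ℝ} (ht : Thin a b r n z) (k : ℕ)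
    (hk : k + 1 ≤ n) :
    0 < sol b (fun k => 2 * z k) 0 1 (k + 1 + 1)
      * (-(2 * z (k + 1)) * sol b (fun k => 2 * z k) 0 1 (k + 1)) := by
  have g1 := sol_gen ht k (by omega)
  have g2 := grow_all ht k (by omega)
  have w0 := wt_pos ht 1
  have w1 := wt_pos ht (k + 1)
  have wk := wt_le ht.par (z k)
  have wge := wt_ge ht.par (bound ht.par ht.orb (k + 1))
  have hr0 := ht.par.r0
  have hr1 := ht.par.r1
  have hb0 := ht.par.b0
  have hb1 := ht.par.b1
  have hout : r ≤ |z (k + 1)| := by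
    have := ht.orb.out (k + 1) (by omega) hk
    rw [abs_mul, abs_of_pos (by norm_num : (0 : ℝ) < 2)] at this
    linarith
  have e : sol b (fun k => 2 * z k) 0 1 (k + 1 + 1)
      = -(2 * z (k + 1)) * sol b (fun k => 2 * z k) 0 1 (k + 1)
        + b * sol b (fun k => 2 * z k) 0 1 k := rfl
  rw [e]
  set X : ℝ := sol b (fun k => 2 * z k) 0 1 (k + 1) with hX
  set Y : ℝ := sol b (fun k => 2 * z k) 0 1 k with hY
  have hXpos : 0 < |X| := by
    have h1 : 0 < (9 / 5 : ℝ) ^ k * wt r (z (k + 1)) := by positivity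
    have h2 : 0 < |X| * wt r (z 1) := lt_of_lt_of_le h1 g2
    exact pos_of_mul_pos_left h2 w0.le
  have h6 : |X| * wt r (z k) ≤ |X| * (201 / 100) := mul_le_mul_of_nonneg_left wk hXpos.le
  have h7 : |Y| * wt r (z (k + 1)) ≤ 5 / 9 * (201 / 100) * |X| := by linarith
  have h8 : |Y| * (7 / 10 * r) ≤ |Y| * wt r (z (k + 1)) :=
    mul_le_mul_of_nonneg_left wge (abs_nonneg _)
  have h9 : r * |Y| ≤ 2 * |X| := by linarith
  have h10 : b * |Y| ≤ r ^ 2 / 1000 * |Y| := mul_le_mul_of_nonneg_right hb1 (abs_nonneg _)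
  have h11 : r ^ 2 / 1000 * |Y| ≤ r * (2 * |X|) / 1000 := by
    have := mul_le_mul_of_nonneg_left h9 hr0.le
    have e2 : r ^ 2 / 1000 * |Y| = r * (r * |Y|) / 1000 := by ring
    rw [e2]
    linarith
  have h12 : r * |X| ≤ |z (k + 1)| * |X| := mul_le_mul_of_nonneg_right hout hXpos.le
  have h13 : 0 < r * |X| := mul_pos hr0 hXpos
  set A : ℝ := -(2 * z (k + 1)) * X with hA
  set B : ℝ := b * Y with hB
  have hAabs : |A| = 2 * (|z (k + 1)| * |X|) := by
    rw [hA, abs_mul, abs_neg, abs_mul, abs_of_pos (by norm_num : (0 : ℝ) < 2)]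
    ring
  have hBabs : |B| = b * |Y| := by
    rw [hB, abs_mul, abs_of_pos hb0]
  have hlt : |B| < |A| := by
    rw [hAabs, hBabs]
    linarith
  have hApos : 0 < |A| := lt_of_le_of_lt (abs_nonneg B) hlt
  have h14 : -(|B| * |A|) ≤ B * A := by
    rw [← abs_mul]
    exact neg_abs_le (B * A)
  have h15 : |B| * |A| < |A| * |A| := mul_lt_mul_of_pos_right hlt hApos
  have h16 : |A| * |A| = A * A := abs_mul_abs_self A
  have h17 : (A + B) * A = A * A + B * A := by ring
  rw [h17]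
  linarith

theorem signs {a a' b r : ℝ} {n : ℕ} {z z' : ℕ → ℝ} (ht : Thin a b r n z) (ht' : Thin a' b r n z')
    (hs : ∀ k, 1 ≤ k → k ≤ n → 0 < z k * z' k) :
    0 < sol b (fun k => 2 * z k) 0 1 (n + 1) * sol b (fun k => 2 * z' k) 0 1 (n + 1) := by
  have key : ∀ k, k ≤ n → 0 < sol b (fun k => 2 * z k) 0 1 (k + 1)
      * sol b (fun k => 2 * z' k) 0 1 (k + 1) := by
    intro k
    induction k with
    | zero =>
      intro _
      simp [sol]
    | succ k ih =>
      intro hk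
      have h0 := ih (by omega)
      have s1 := step_sign ht k hk
      have s2 := step_sign ht' k hk
      have s3 := hs (k + 1) (by omega) hk
      have s4 := mul_pos s1 s2
      have s5 : sol b (fun k => 2 * z k) 0 1 (k + 1 + 1)
            * (-(2 * z (k + 1)) * sol b (fun k => 2 * z k) 0 1 (k + 1)) *
          (sol b (fun k => 2 * z' k) 0 1 (k + 1 + 1)
            * (-(2 * z' (k + 1)) * sol b (fun k => 2 * z' k) 0 1 (k + 1)))
          = (sol b (fun k => 2 * z k) 0 1 (k + 1 + 1) * sol b (fun k => 2 * z' k) 0 1 (k + 1 + 1))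
            * ((4 * (z (k + 1) * z' (k + 1))) * (sol b (fun k => 2 * z k) 0 1 (k + 1)
              * sol b (fun k => 2 * z' k) 0 1 (k + 1))) := by
        ring
      rw [s5] at s4
      exact pos_of_mul_pos_left s4 (mul_pos (by linarith) h0).le
  exact key n le_rfl

end Pool.Agent.helper23.HT
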