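import Pool.Agent.helper23.HS.Link

/-!
# From a sink to the scaled orbit (after module HS-Link by helper28)

Let `O` be a sink with exactly one strip point `q`; `O` is the orbit of `p` of least period `N`,
`q = H^i p`, `i < N`. Put `n = N - 1`, `z k = a * ((henon a b)^[k] q).1`. Then `H^N q = q`,
`O = {H^j q | j < N}`, so `q.2 = b * ((henon a b)^[n] q).1` (`q = H (H^n q)`), the recursion of `z`
follows from the definition of `henon`, and `H^k q ≠ q` for `1 ≤ k ≤ n` (least period of `q` is `N`,
`Function.minimalPeriod_apply_iterate`, or directly), so these points are outside the strip.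
`chi` by the stubs `chi_eq`, `base`, `det_iter`, `sink_bounds` of Jac.lean.
-/

namespace Pool.Agent.helper23.HT

open Pool.Agent.H48.HN Pool.Agent.helper23.HS

theorem exists_orb' {a b R : ℝ} (ha : 0 < a) (hb : 0 < b) (hb1 : b < 1) {O : Set (ℝ × ℝ)}
    (hO : OneVisit a b R O) :
    ∃ (n : ℕ) (z : ℕ → ℝ), Orb a b R n z ∧ |2 * z 0| < R ∧ 0 < chi b (fun k => 2 * z k) n ∧
      chi b (fun k => 2 * z k) n ≤ 4 ∧
      O = {q | ∃ i < n + 1, q = (henon a b)^[i] (z 0 / a, b * z n / a)} := by
  obtain ⟨⟨p, N, hN, hmin, hOeq, hmu⟩, q, ⟨hqO, hqR⟩, hqu⟩ := hO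
  obtain ⟨n, rfl⟩ : ∃ n, N = n + 1 := ⟨N - 1, by omega⟩
  have hper : (henon a b)^[n + 1] p = p := by
    have h := Function.iterate_minimalPeriod (f := henon a b) (x := p)
    rwa [hmin] at h
  have hperiodic : Function.IsPeriodicPt (henon a b) (n + 1) p := hper
  have hpp : p ∈ Function.periodicPts (henon a b) := ⟨n + 1, Nat.succ_pos n, hper⟩
  have hq0 : ∃ i < n + 1, q = (henon a b)^[i] p := by
    rw [hOeq] at hqO
    exact hqO
  obtain ⟨i, hi, hq⟩ := hq0
  have hminq : Function.minimalPeriod (henon a b) q = n + 1 := by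
    rw [hq, Function.minimalPeriod_apply_iterate hpp i, hmin]
  have hperq : (henon a b)^[n + 1] q = q := by
    have h := Function.iterate_minimalPeriod (f := henon a b) (x := q)
    rwa [hminq] at h
  have hperiodicq : Function.IsPeriodicPt (henon a b) (n + 1) q := hperq
  -- the orbit of q
  have hmem : ∀ j : ℕ, (henon a b)^[j] q ∈ O := by
    intro j
    rw [hOeq]
    refine ⟨(j + i) % (n + 1), Nat.mod_lt _ (Nat.succ_pos n), ?_⟩
    rw [hperiodic.iterate_mod_apply, Function.iterate_add_apply, ← hq]
  have hOq : O = {q' | ∃ j < n + 1, q' = (henon a b)^[j] q} := by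
    ext q'
    constructor
    · intro h
      rw [hOeq] at h
      obtain ⟨j, _, hj⟩ := h
      refine ⟨(j + (n + 1 - i)) % (n + 1), Nat.mod_lt _ (Nat.succ_pos n), ?_⟩
      rw [hperiodicq.iterate_mod_apply, hq, ← Function.iterate_add_apply]
      have h1 : j + (n + 1 - i) + i = j + (n + 1) := by omega
      rw [h1, Function.iterate_add_apply, hper]
      exact hj
    · rintro ⟨j, _, rfl⟩
      exact hmem j
  have hz2 : q.2 = b * ((henon a b)^[n] q).1 := by
    have h := h28_snd_succ a b q n
    rwa [hperq] at h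
  have hqz : ((a * ((henon a b)^[0] q).1) / a, b * (a * ((henon a b)^[n] q).1) / a) = q := by
    ext
    · simp only [Function.iterate_zero, id]
      field_simp
    · simp only
      rw [hz2]
      field_simp
  refine ⟨n, fun k => a * ((henon a b)^[k] q).1, ⟨?_, ?_, ?_, ?_⟩, ?_, ?_, ?_, ?_⟩
  · simp only [hperq, Function.iterate_zero, id]
  · have h1 : (henon a b)^[n + 2] q = (henon a b)^[1] q := by
      rw [show n + 2 = (n + 1) + 1 from rfl, Function.iterate_succ_apply', hperq]
      rfl
    simp only [h1]
  · intro k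
    have h1 := h28_fst_succ a b q (k + 1)
    have h2 := h28_snd_succ a b q k
    rw [show k + 2 = (k + 1) + 1 from rfl, h1, h2]
    ring
  · intro k hk1 hkn
    by_contra hlt
    push Not at hlt
    have h1 : (henon a b)^[k] q = q := by
      apply hqu
      refine ⟨hmem k, ?_⟩
      have h2 : 2 * a * ((henon a b)^[k] q).1 = 2 * (a * ((henon a b)^[k] q).1) := by ring
      rw [h2]
      exact hlt
    have h3 : Function.minimalPeriod (henon a b) q ≤ k :=
      Function.IsPeriodicPt.minimalPeriod_le (by omega) h1
    omega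
  · simp only [Function.iterate_zero, id]
    rw [← mul_assoc]
    exact hqR
  · have h1 := chi_eq a b q n
    have h2 := sink_bounds hb hb1 hmu
    rw [det_iter] at h1 h2
    have h3 := base hb.ne' hper i
    rw [← hq] at h3
    simp only
    rw [← h1, h3]
    exact h2.1
  · have h1 := chi_eq a b q n
    have h2 := sink_bounds hb hb1 hmu
    rw [det_iter] at h1 h2
    have h3 := base hb.ne' hper i
    rw [← hq] at h3
    simp only
    rw [← h1, h3]
    exact h2.2
  · simp only
    rw [hqz]
    exact hOq

end Pool.Agent.helper23.HT
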