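import Pool.Agent.helper23.HT.Grow
import Pool.Agent.helper23.HS.Link

/-!
# Every sink visits the thin strip (module HT-Zero)

Suppose all points of `O` satisfy `2 r ≤ |2 a x|`. Choose the point `q` of `O` with the smallest
`|x|`, so with the largest weight. `z k = a * ((henon a b)^[k] q).1` satisfies `Orb a b (2 r) n z`
(`n + 1` the period; see the proof of `exists_orb` in HS/Link.lean) and `r ≤ |z k|` for all `k`,
`|z 0| ≤ |z k|`, so `w k = wt r (z k) ≤ w 0`. `c k = 2 z k`, `v k = sol b c 0 1 k`, `s k = sol b c 1 (-c 0) k`.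
`grow_gen` for `x = s`: `h0` holds by `wt_step` (`z 1 = a - z 0 ^ 2 + b z n`). So `|s k| w 0 ≥ (9/5)^k w k`,
`|s (n+1)| ≥ (9/5)^(n+1)` (`z (n+1) = z 0`) and `|s k| ≥ (9/5)^k r / 3` (`w k ≥ 7/10 r`, `w 0 ≤ 201/100`).
Wronskian `|v (k+1) s k - v k s (k+1)| = b^k`, so `|v k| ≤ (10 / r^2) (1 - 2^(-k)) |s k|` by induction,
`b |v n| ≤ |s n| / 100` and `|s n| ≤ (5/9) |s (n+1)|` (`w n ≤ w 0 = w (n+1)`).
The trace of `jacIter a b q (n+1)` is `s (n+1) + b v n` (entries in HS/Jac.lean), so its absolute value is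
`≥ (1 - 1/180) (9/5)`, but for a sink `|trace| < 1 + det ≤ 1 + b` (`jury_one`, `jury_neg`, `det_iter`,
`base`; see `sink_bounds` in HS/Jac.lean).
-/

namespace Pool.Agent.helper23.HT

open Pool.Agent.helper23.HS Pool.Agent.H48.HN

/-- The Wronskian of two solutions. -/
theorem h66_wron (b : ℝ) (c : ℕ → ℝ) (k : ℕ) :
    sol b c 0 1 (k + 1) * sol b c 1 (-c 0) k - sol b c 0 1 k * sol b c 1 (-c 0) (k + 1)
      = (-b) ^ k := by
  induction k with
  | zero => simp [sol]
  | succ k ih =>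
    have e1 : sol b c 0 1 (k + 1 + 1) = - c (k + 1) * sol b c 0 1 (k + 1) + b * sol b c 0 1 k := rfl
    have e2 : sol b c 1 (-c 0) (k + 1 + 1)
        = - c (k + 1) * sol b c 1 (-c 0) (k + 1) + b * sol b c 1 (-c 0) k := rfl
    rw [e1, e2, pow_succ, ← ih]
    ring

/-- The estimate of the trace along an orbit which stays outside the strip. -/
theorem h66_trace {a b r : ℝ} (h : Par a b r) {n : ℕ} {z : ℕ → ℝ} (ho : Orb a b (2 * r) n z)
    (h0 : r ≤ |z 0|) (hmin : |z 0| ≤ |z n|) :
    17 / 10 ≤ |sol b (fun k => 2 * z k) 1 (-(2 * z 0)) (n + 1)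
      + b * sol b (fun k => 2 * z k) 0 1 n| := by
  have hr := h.r0
  have hb := h.b0
  have hb1 := h.b1
  have hr1 := h.r1
  have hbd := bound h ho
  have hw : ∀ k, 0 < wt r (z k) := fun k => by
    have := wt_ge h (hbd k)
    linarith
  have hw0 := hw 0
  have hz1 : z 1 = a - z 0 ^ 2 + b * z n := by
    have e := ho.eqn n
    rw [ho.per, ho.per1] at e
    linarith
  set s : ℕ → ℝ := sol b (fun k => 2 * z k) 1 (-(2 * z 0)) with hs
  set v : ℕ → ℝ := sol b (fun k => 2 * z k) 0 1 with hv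
  have hs0 : s 0 = 1 := rfl
  have hs1 : s 1 = -(2 * z 0) := rfl
  have hv0 : v 0 = 0 := rfl
  -- growth
  have hG : ∀ k, k ≤ n → 9 / 5 * |s k| * wt r (z (k + 1)) ≤ |s (k + 1)| * wt r (z k) := by
    refine grow_gen h (z := z) (x := s) (n := n) hbd (fun k => ?_) (fun k hk1 hk => ?_)
      (fun k => rfl) ?_
    · have := ho.eqn k
      linarith
    · have := ho.out k hk1 hk
      rw [abs_mul, abs_of_pos (by norm_num : (0 : ℝ) < 2)] at this
      linarith
    · have h1 := wt_step h (hbd 0) (hbd n) h0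
      rw [← hz1] at h1
      rw [hs0, hs1, abs_one, abs_neg, abs_mul, abs_of_pos (by norm_num : (0 : ℝ) < 2)]
      have h2 : 0 ≤ |z 0| * wt r (z 0) := mul_nonneg (abs_nonneg _) hw0.le
      nlinarith
  -- first consequence
  have hS : ∀ k, k ≤ n + 1 → (9 / 5 : ℝ) ^ k * wt r (z k) ≤ |s k| * wt r (z 0) := by
    intro k
    induction k with
    | zero =>
      intro _
      rw [hs0, abs_one, pow_zero]
    | succ k ih =>
      intro hk
      have h1 := ih (by omega)
      have h2 := hG k (by omega)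
      have h3 : wt r (z k) * ((9 / 5 : ℝ) ^ (k + 1) * wt r (z (k + 1)))
          ≤ wt r (z k) * (|s (k + 1)| * wt r (z 0)) := by
        calc wt r (z k) * ((9 / 5 : ℝ) ^ (k + 1) * wt r (z (k + 1)))
            = ((9 / 5 : ℝ) ^ k * wt r (z k)) * (9 / 5 * wt r (z (k + 1))) := by ring
          _ ≤ (|s k| * wt r (z 0)) * (9 / 5 * wt r (z (k + 1))) :=
              mul_le_mul_of_nonneg_right h1 (by have := hw (k + 1); linarith)
          _ = (9 / 5 * |s k| * wt r (z (k + 1))) * wt r (z 0) := by ring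
          _ ≤ (|s (k + 1)| * wt r (z k)) * wt r (z 0) :=
              mul_le_mul_of_nonneg_right h2 hw0.le
          _ = wt r (z k) * (|s (k + 1)| * wt r (z 0)) := by ring
      exact le_of_mul_le_mul_left h3 (hw k)
  have hsn1 : (9 / 5 : ℝ) ^ (n + 1) ≤ |s (n + 1)| := by
    have h1 := hS (n + 1) le_rfl
    rw [ho.per] at h1
    exact le_of_mul_le_mul_right h1 hw0
  have hslow : ∀ k, k ≤ n + 1 → (9 / 5 : ℝ) ^ k * (r / 3) ≤ |s k| := by
    intro k hk
    have h1 := hS k hk
    have h2 := wt_ge h (hbd k)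
    have h3 := wt_le h (z 0)
    have h4 : (0 : ℝ) ≤ (9 / 5 : ℝ) ^ k := by positivity
    have h5 : (9 / 5 : ℝ) ^ k * (7 / 10 * r) ≤ |s k| * (201 / 100) :=
      (mul_le_mul_of_nonneg_left h2 h4).trans
        (h1.trans (mul_le_mul_of_nonneg_left h3 (abs_nonneg _)))
    have h6 : (0 : ℝ) ≤ (9 / 5 : ℝ) ^ k * r := by positivity
    nlinarith
  -- the second solution
  have hr2 : 0 < r ^ 2 := by positivity
  have hV : ∀ k, k ≤ n + 1 → |v k| ≤ (10 / r ^ 2) * (1 - (1 / 2 : ℝ) ^ k) * |s k| := by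
    intro k
    induction k with
    | zero =>
      intro _
      rw [hv0, abs_zero, pow_zero]
      simp
    | succ k ih =>
      intro hk
      have h1 := ih (by omega)
      have hsk := hslow k (by omega)
      have hsk1 := hslow (k + 1) hk
      have hskpos : 0 < |s k| := lt_of_lt_of_le (by positivity) hsk
      have hW := h66_wron b (fun k => 2 * z k) k
      have hW' : v (k + 1) * s k = v k * s (k + 1) + (-b) ^ k := by
        change v (k + 1) * s k - v k * s (k + 1) = (-b) ^ k at hW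
        linarith
      have hWa : |v (k + 1)| * |s k| ≤ |v k| * |s (k + 1)| + b ^ k := by
        rw [← abs_mul, hW']
        refine (abs_add_le _ _).trans ?_
        rw [abs_mul, abs_pow, abs_neg, abs_of_pos hb]
      have hprod : (9 / 5 : ℝ) ^ (2 * k + 1) * (r ^ 2 / 9) ≤ |s k| * |s (k + 1)| := by
        calc (9 / 5 : ℝ) ^ (2 * k + 1) * (r ^ 2 / 9)
            = ((9 / 5 : ℝ) ^ k * (r / 3)) * ((9 / 5 : ℝ) ^ (k + 1) * (r / 3)) := by ring
          _ ≤ |s k| * |s (k + 1)| :=
              mul_le_mul hsk hsk1 (by positivity) (abs_nonneg _)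
      have hbk : b ^ k ≤ (10 / r ^ 2) * ((1 / 2 : ℝ) ^ (k + 1)) * (|s k| * |s (k + 1)|) := by
        have hb2 : b ≤ 1 := by nlinarith
        have h2 : b ^ k ≤ 1 := pow_le_one₀ hb.le hb2
        have h3 : (1 : ℝ) ≤ (10 / r ^ 2) * ((1 / 2 : ℝ) ^ (k + 1)) *
            ((9 / 5 : ℝ) ^ (2 * k + 1) * (r ^ 2 / 9)) := by
          have e : (10 / r ^ 2) * ((1 / 2 : ℝ) ^ (k + 1)) *
            ((9 / 5 : ℝ) ^ (2 * k + 1) * (r ^ 2 / 9)) = (81 / 50 : ℝ) ^ k := by
            have e1 : (9 / 5 : ℝ) ^ (2 * k + 1) = (81 / 25 : ℝ) ^ k * (9 / 5) := by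
              rw [pow_succ, pow_mul]
              norm_num
            have e2 : (81 / 50 : ℝ) ^ k = (81 / 25 : ℝ) ^ k * (1 / 2) ^ k := by
              rw [← mul_pow]
              norm_num
            rw [e1, e2, pow_succ (1 / 2 : ℝ) k]
            field_simp
            ring
          rw [e]
          exact one_le_pow₀ (by norm_num)
        refine h2.trans (h3.trans ?_)
        exact mul_le_mul_of_nonneg_left hprod (by positivity)
      have h5 : |v k| * |s (k + 1)| ≤ (10 / r ^ 2) * (1 - (1 / 2 : ℝ) ^ k) * |s k| * |s (k + 1)| :=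
        mul_le_mul_of_nonneg_right h1 (abs_nonneg _)
      have h6 : |s k| * |v (k + 1)| ≤
          |s k| * ((10 / r ^ 2) * (1 - (1 / 2 : ℝ) ^ (k + 1)) * |s (k + 1)|) := by
        calc |s k| * |v (k + 1)| = |v (k + 1)| * |s k| := by ring
          _ ≤ |v k| * |s (k + 1)| + b ^ k := hWa
          _ ≤ (10 / r ^ 2) * (1 - (1 / 2 : ℝ) ^ k) * |s k| * |s (k + 1)|
              + (10 / r ^ 2) * ((1 / 2 : ℝ) ^ (k + 1)) * (|s k| * |s (k + 1)|) :=
              add_le_add h5 hbk
          _ = |s k| * ((10 / r ^ 2) * (1 - (1 / 2 : ℝ) ^ (k + 1)) * |s (k + 1)|) := by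
              rw [pow_succ]
              ring
      exact le_of_mul_le_mul_left h6 hskpos
  have hvn : b * |v n| ≤ |s n| / 100 := by
    have h1 := hV n (by omega)
    have h2 : (0 : ℝ) ≤ (1 / 2 : ℝ) ^ n := by positivity
    have h3 : |v n| ≤ (10 / r ^ 2) * |s n| := by
      refine h1.trans ?_
      refine mul_le_mul_of_nonneg_right ?_ (abs_nonneg _)
      have : (0 : ℝ) ≤ 10 / r ^ 2 := by positivity
      nlinarith
    calc b * |v n| ≤ b * ((10 / r ^ 2) * |s n|) := mul_le_mul_of_nonneg_left h3 hb.le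
      _ ≤ (r ^ 2 / 1000) * ((10 / r ^ 2) * |s n|) :=
          mul_le_mul_of_nonneg_right hb1 (by positivity)
      _ = |s n| / 100 := by
          field_simp
          ring
  have hwn : wt r (z n) ≤ wt r (z 0) := by
    unfold wt
    apply Real.sqrt_le_sqrt
    have : z 0 ^ 2 ≤ z n ^ 2 := sq_le_sq.2 hmin
    linarith
  have hsn : 9 / 5 * |s n| ≤ |s (n + 1)| := by
    have h1 := hG n le_rfl
    rw [ho.per] at h1
    have h2 : |s (n + 1)| * wt r (z n) ≤ |s (n + 1)| * wt r (z 0) :=
      mul_le_mul_of_nonneg_left hwn (abs_nonneg _)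
    exact le_of_mul_le_mul_right (h1.trans h2) hw0
  have h95 : (9 / 5 : ℝ) ≤ (9 / 5 : ℝ) ^ (n + 1) := by
    calc (9 / 5 : ℝ) = (9 / 5 : ℝ) ^ 1 := (pow_one _).symm
      _ ≤ (9 / 5 : ℝ) ^ (n + 1) := pow_le_pow_right₀ (by norm_num) (by omega)
  have htri : |s (n + 1)| - |b * v n| ≤ |s (n + 1) + b * v n| := by
    have := abs_add_le (s (n + 1) + b * v n) (-(b * v n))
    rw [abs_neg, add_neg_cancel_right] at this
    linarith
  rw [abs_mul, abs_of_pos hb] at htri
  linarith

theorem visits {a b r : ℝ} (h : Par a b r) {O : Set (ℝ × ℝ)} (hO : IsSink a b O) :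
    ∃ q ∈ O, |2 * a * q.1| < 2 * r := by
  by_contra hcon
  push Not at hcon
  have hr := h.r0
  have hr1 := h.r1
  have hb := h.b0
  have hbr := h.b1
  have hb1 : b < 1 / 10 := by nlinarith
  have ha : 0 < a := by
    have := (abs_le.1 h.ha).1
    nlinarith
  obtain ⟨p, N, hN, hmin, hOeq, hmu⟩ := hO
  obtain ⟨n, rfl⟩ : ∃ n, N = n + 1 := ⟨N - 1, by omega⟩
  have hper : (henon a b)^[n + 1] p = p := by
    have h := Function.iterate_minimalPeriod (f := henon a b) (x := p)
    rwa [hmin] at h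
  have hperiodic : Function.IsPeriodicPt (henon a b) (n + 1) p := hper
  -- the point with the smallest first coordinate
  obtain ⟨i, hi, himin⟩ := Finset.exists_min_image (Finset.range (n + 1))
    (fun j => |((henon a b)^[j] p).1|) ⟨0, by simp⟩
  rw [Finset.mem_range] at hi
  set q := (henon a b)^[i] p with hq
  have hmemi : ∀ j : ℕ, (henon a b)^[j] q = (henon a b)^[(j + i) % (n + 1)] p := by
    intro j
    rw [hperiodic.iterate_mod_apply, Function.iterate_add_apply]
  have hmem : ∀ j : ℕ, (henon a b)^[j] q ∈ O := by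
    intro j
    rw [hOeq]
    exact ⟨(j + i) % (n + 1), Nat.mod_lt _ (Nat.succ_pos n), hmemi j⟩
  have hqmin : ∀ j : ℕ, |q.1| ≤ |((henon a b)^[j] q).1| := by
    intro j
    rw [hmemi j]
    exact himin _ (Finset.mem_range.2 (Nat.mod_lt _ (Nat.succ_pos n)))
  have hperq : (henon a b)^[n + 1] q = q := by
    rw [hq, ← Function.iterate_add_apply, Nat.add_comm (n + 1) i, Function.iterate_add_apply, hper]
  have hout : ∀ k : ℕ, 2 * r ≤ |2 * (a * ((henon a b)^[k] q).1)| := by
    intro k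
    have h1 := hcon _ (hmem k)
    have e : 2 * (a * ((henon a b)^[k] q).1) = 2 * a * ((henon a b)^[k] q).1 := by ring
    rw [e]
    exact h1
  have horb : Orb a b (2 * r) n (fun k => a * ((henon a b)^[k] q).1) := by
    refine ⟨?_, ?_, ?_, ?_⟩
    · simp only [hperq, Function.iterate_zero, id]
    · have h1 : (henon a b)^[n + 2] q = (henon a b)^[1] q := by
        rw [show n + 2 = (n + 1) + 1 from rfl, Function.iterate_succ_apply', hperq]
        rfl
      simp only [h1]
    · intro k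
      have h1 := h28_fst_succ a b q (k + 1)
      have h2 := h28_snd_succ a b q k
      rw [show k + 2 = (k + 1) + 1 from rfl, h1, h2]
      ring
    · intro k _ _
      exact hout k
  have h0 : r ≤ |(fun k => a * ((henon a b)^[k] q).1) 0| := by
    have h1 := hout 0
    rw [abs_mul, abs_of_pos (by norm_num : (0 : ℝ) < 2)] at h1
    simp only
    linarith
  have hm : |(fun k => a * ((henon a b)^[k] q).1) 0| ≤ |(fun k => a * ((henon a b)^[k] q).1) n| := by
    simp only [Function.iterate_zero, id]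
    rw [abs_mul, abs_mul]
    exact mul_le_mul_of_nonneg_left (hqmin n) (abs_nonneg _)
  have hT := h66_trace h horb h0 hm
  -- the trace
  obtain ⟨-, -, h3, h4, h5, h6⟩ := Jac_entries a b q n
  have htr : (jacIter a b q (n + 1)).trace =
      sol b (fun k => 2 * (a * ((henon a b)^[k] q).1)) 1 (-(2 * (a * q.1))) (n + 1)
        + b * sol b (fun k => 2 * (a * ((henon a b)^[k] q).1)) 0 1 n := by
    rw [Matrix.trace_fin_two, h4, h5]
  simp only [Function.iterate_zero, id] at hT
  rw [← htr] at hT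
  have hbase := base hb.ne' hper i
  rw [← hq] at hbase
  rw [hbase] at hT
  have hroot : ∀ μ : ℂ, μ ^ 2 - ((jacIter a b p (n + 1)).trace : ℂ) * μ
      + ((jacIter a b p (n + 1)).det : ℂ) = 0 → ‖μ‖ < 1 := fun μ hμ => hmu μ (charpoly_root.2 hμ)
  have j1 := jury_one hroot
  have j2 := jury_neg hroot
  have hd : (jacIter a b p (n + 1)).det ≤ b := by
    rw [det_iter]
    calc (-b) ^ (n + 1) ≤ |(-b) ^ (n + 1)| := le_abs_self _
      _ = b ^ (n + 1) := by rw [abs_pow, abs_neg, abs_of_pos hb]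
      _ ≤ b ^ 1 := pow_le_pow_of_le_one hb.le (by linarith) (by omega)
      _ = b := pow_one b
  rcases le_abs'.1 hT with h1 | h1 <;> linarith

end Pool.Agent.helper23.HT
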