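import Pool.Agent.helper23.HT.Core
import Pool.Agent.helper23.HT.Link
import Pool.Agent.helper23.HT.Dim
import Pool.Agent.helper23.HT.Words
import Pool.Agent.helper23.HT.Zero
import Pool.Agent.helper23.HS.Main

/-!
# Few parameters with infinitely many sinks of one visit to a thin strip (helper23)
-/

namespace Pool.Agent.helper23.HT

open Pool.Agent.H48.HN Pool.Agent.helper23.HS MeasureTheory Set

theorem Thin.ne {a b r : ℝ} {n : ℕ} {z : ℕ → ℝ} (h : Thin a b r n z) {k : ℕ} (h1 : 1 ≤ k)
    (h2 : k ≤ n) : z k ≠ 0 := by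
  have o1 := h.orb.out k h1 h2
  have hr := h.par.r0
  intro h0
  rw [h0] at o1
  simp at o1
  linarith

theorem TT_window {b r : ℝ} (w : List Bool) :
    ∀ x ∈ TT b r w, ∀ y ∈ TT b r w, |x - y| ≤ 64 / 3 * (25 / 81) ^ w.length := by
  rintro x ⟨z, hz, hw, hc⟩ y ⟨z', hz', hw', hc'⟩
  refine window hz' hz ?_ hc' hc
  intro k h1 h2
  obtain ⟨j, rfl⟩ : ∃ j, k = j + 1 := ⟨k - 1, by omega⟩
  have hj : j < w.length := by omega
  have n1 := hz.ne h1 h2
  have n2 := hz'.ne h1 h2
  rcases Bool.eq_false_or_eq_true (w[j]) with h | h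
  · have e1 := (hw j hj).1 h
    have e2 := (hw' j hj).1 h
    exact mul_pos (lt_of_le_of_ne e2 n2.symm) (lt_of_le_of_ne e1 n1.symm)
  · have e1 := (hw j hj).2 h
    have e2 := (hw' j hj).2 h
    exact mul_pos_of_neg_of_neg (lt_of_le_of_ne e2 n2) (lt_of_le_of_ne e1 n1)

theorem slice (b r : ℝ) : dimH {a | {w | a ∈ TT b r w}.Infinite} ≤ 3 / 5 :=
  dimH_io (C := 64 / 3) TT_window

theorem infinite_words {a b r : ℝ} (h : Par a b r) (hO : {O | OneVisit a b (2 * r) O}.Infinite) :
    {w | a ∈ TT b r w}.Infinite := by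
  have hr := h.r0
  have hr1 := h.r1
  have hb := h.b0
  have hr2 : r ^ 2 / 1000 ≤ 1 / 10 := by nlinarith
  have hb1 : b < 1 := by have := h.b1; linarith
  have ha : 0 < a := by have := (abs_le.1 h.ha).1; linarith
  by_contra hfin
  rw [Set.not_infinite] at hfin
  apply hO
  choose! n z hz hz0 hc hc4 hO using fun (O : Set (ℝ × ℝ)) (h : OneVisit a b (2 * r) O) =>
    exists_orb' (R := 2 * r) ha hb hb1 h
  have hT : ∀ O, OneVisit a b (2 * r) O → Thin a b r (n O) (z O) := by
    intro O hOm
    refine ⟨h, hz O hOm, ?_⟩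
    have h1 := hz0 O hOm
    rw [abs_mul, abs_of_pos (by norm_num : (0 : ℝ) < 2)] at h1
    linarith
  refine Set.Finite.of_injOn (f := fun O => word (n O) (z O)) (fun O hOm => ?_) ?_ hfin
  · refine ⟨z O, ?_, ?_, ?_⟩
    · rw [word_length]; exact hT O hOm
    · intro k hk
      rw [word_get]
      refine ⟨fun h => by simpa using h, fun h => ?_⟩
      have := of_decide_eq_false h
      linarith
    · rw [word_length, abs_of_pos (hc O hOm)]
      exact hc4 O hOm
  · intro O hOm O' hOm' he
    have hn : n O = n O' := by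
      have := congrArg List.length he
      simpa [word_length] using this
    have hz1 := hT O hOm
    have hz2 := hT O' hOm'
    rw [← hn] at hz2
    have hc2 := hc O' hOm'
    rw [← hn] at hc2
    have hs : ∀ k, 1 ≤ k → k ≤ n O → 0 < z O k * z O' k := by
      intro k h1 h2
      obtain ⟨j, rfl⟩ : ∃ j, k = j + 1 := ⟨k - 1, by omega⟩
      have n1 := hz1.ne h1 h2
      have n2 := hz2.ne h1 h2
      have hj1 : j < (word (n O) (z O)).length := by rw [word_length]; omega
      have hj2 : j < (word (n O') (z O')).length := by rw [word_length]; omega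
      have key : (word (n O) (z O))[j] = (word (n O') (z O'))[j] := by
        simp only [he]
      rw [word_get, word_get] at key
      by_cases hp : 0 ≤ z O (j + 1)
      · have hp' : 0 ≤ z O' (j + 1) := by
          rw [decide_eq_true hp] at key
          exact of_decide_eq_true key.symm
        exact mul_pos (lt_of_le_of_ne hp n1.symm) (lt_of_le_of_ne hp' n2.symm)
      · have hp' : ¬ 0 ≤ z O' (j + 1) := by
          rw [decide_eq_false hp] at key
          exact of_decide_eq_false key.symm
        exact mul_pos_of_neg_of_neg (not_le.1 hp) (not_le.1 hp')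
    have huni := unique hz1 hz2 hs (hc O hOm) hc2
    rw [hO O hOm, hO O' hOm', ← hn, huni 0 (Nat.zero_le _), huni (n O) le_rfl]

end Pool.Agent.helper23.HT
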