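import Pool.Agent.helper23.HT.Words
import Pool.Agent.helper23.HS.Meas

/-!
# Measurability in the plane (module HT-Meas)

As HS/Meas.lean (same proofs; `sol_cont`, `chi_cont`, `orb_bound`, ... can be used from there). The
conditions of `Thin` are closed except `0 < r` (a constant) and `0 < b`. So for fixed `r` the set is
`{0 < q.2} ∩` (projection of a closed set of pairs `(q, z)` with `z` bounded), the parameters
`|a - 2| ≤ r^2/1000`, `b ≤ r^2/1000` being bounded. If `¬ 0 < r` the set is empty.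
-/

namespace Pool.Agent.helper23.HT

open Pool.Agent.helper23.HS MeasureTheory

/-- The pairs (parameter, orbit) satisfying all closed conditions. -/
def SR (r : ℝ) (w : List Bool) : Set ((ℝ × ℝ) × (ℕ → ℝ)) :=
  {p | (|p.1.1 - 2| ≤ r ^ 2 / 1000 ∧ p.1.2 ≤ r ^ 2 / 1000) ∧
    (Orb p.1.1 p.1.2 (2 * r) w.length p.2 ∧ |p.2 0| ≤ r) ∧
    (∀ (k : ℕ) (hk : k < w.length),
      (w[k] = true → 0 ≤ p.2 (k + 1)) ∧ (w[k] = false → p.2 (k + 1) ≤ 0)) ∧
    |chi p.1.2 (fun k => 2 * p.2 k) w.length| ≤ 4}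

theorem SR_closed (r : ℝ) (w : List Bool) : IsClosed (SR r w) := by
  have hz : ∀ k : ℕ, Continuous (fun p : (ℝ × ℝ) × (ℕ → ℝ) => p.2 k) := fun k =>
    (continuous_apply k).comp continuous_snd
  have ha : Continuous (fun p : (ℝ × ℝ) × (ℕ → ℝ) => p.1.1) :=
    continuous_fst.comp continuous_fst
  have hb : Continuous (fun p : (ℝ × ℝ) × (ℕ → ℝ) => p.1.2) :=
    continuous_snd.comp continuous_fst
  have e : SR r w = (({p | |p.1.1 - 2| ≤ r ^ 2 / 1000} ∩ {p | p.1.2 ≤ r ^ 2 / 1000}) ∩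
      {p | |p.2 0| ≤ r}) ∩
      (({p | p.2 (w.length + 1) = p.2 0} ∩ {p | p.2 (w.length + 2) = p.2 1}) ∩
      ((⋂ k : ℕ, {p | p.2 (k + 2) + p.2 (k + 1) ^ 2 - p.1.2 * p.2 k = p.1.1}) ∩
        (⋂ k : ℕ, {p | 1 ≤ k → k ≤ w.length → 2 * r ≤ |2 * p.2 k|}))) ∩
      ((⋂ k : ℕ, {p | ∀ hk : k < w.length,
        (w[k] = true → 0 ≤ p.2 (k + 1)) ∧ (w[k] = false → p.2 (k + 1) ≤ 0)}) ∩
        {p | |chi p.1.2 (fun k => 2 * p.2 k) w.length| ≤ 4}) := by
    ext p
    simp only [SR, Set.mem_ofPred_eq, Set.mem_inter_iff, Set.mem_iInter]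
    constructor
    · rintro ⟨⟨h1, h2⟩, ⟨ho, h3⟩, hs, hc⟩
      exact ⟨⟨⟨⟨h1, h2⟩, h3⟩, ⟨ho.per, ho.per1⟩, ho.eqn, ho.out⟩, hs, hc⟩
    · rintro ⟨⟨⟨⟨g1, g2⟩, g3⟩, ⟨h1, h2⟩, h3, h4⟩, h5, h6⟩
      exact ⟨⟨g1, g2⟩, ⟨⟨h1, h2, h3, h4⟩, g3⟩, h5, h6⟩
  rw [e]
  refine IsClosed.inter (IsClosed.inter (IsClosed.inter (IsClosed.inter ?_ ?_) ?_)
    (IsClosed.inter (IsClosed.inter ?_ ?_) (IsClosed.inter ?_ ?_))) (IsClosed.inter ?_ ?_)
  · exact isClosed_le (ha.sub continuous_const).abs continuous_const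
  · exact isClosed_le hb continuous_const
  · exact isClosed_le (hz 0).abs continuous_const
  · exact isClosed_eq (hz _) (hz _)
  · exact isClosed_eq (hz _) (hz _)
  · exact isClosed_iInter fun k =>
      isClosed_eq (((hz _).add ((hz _).pow 2)).sub (hb.mul (hz _))) ha
  · refine isClosed_iInter fun k => ?_
    by_cases h1 : 1 ≤ k
    · by_cases h2 : k ≤ w.length
      · have : {p : (ℝ × ℝ) × (ℕ → ℝ) | 1 ≤ k → k ≤ w.length →
            2 * r ≤ |2 * p.2 k|} = {p | 2 * r ≤ |2 * p.2 k|} := by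
          ext p
          simp [h1, h2]
        rw [this]
        exact isClosed_le continuous_const (continuous_const.mul (hz k)).abs
      · have : {p : (ℝ × ℝ) × (ℕ → ℝ) | 1 ≤ k → k ≤ w.length →
            2 * r ≤ |2 * p.2 k|} = Set.univ := by
          ext p
          simp [h2]
        rw [this]
        exact isClosed_univ
    · have : {p : (ℝ × ℝ) × (ℕ → ℝ) | 1 ≤ k → k ≤ w.length →
          2 * r ≤ |2 * p.2 k|} = Set.univ := by
        ext p
        simp [h1]
      rw [this]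
      exact isClosed_univ
  · refine isClosed_iInter fun k => ?_
    by_cases hk : k < w.length
    · cases hw : w[k] with
      | true =>
        have : {p : (ℝ × ℝ) × (ℕ → ℝ) | ∀ hk : k < w.length,
            (w[k] = true → 0 ≤ p.2 (k + 1)) ∧ (w[k] = false → p.2 (k + 1) ≤ 0)} =
            {p | 0 ≤ p.2 (k + 1)} := by
          ext p
          simp only [Set.mem_ofPred_eq]
          constructor
          · intro h
            exact (h hk).1 hw
          · intro h hk'
            refine ⟨fun _ => h, fun h' => ?_⟩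
            rw [hw] at h'
            exact absurd h' (by decide)
        rw [this]
        exact isClosed_le continuous_const (hz _)
      | false =>
        have : {p : (ℝ × ℝ) × (ℕ → ℝ) | ∀ hk : k < w.length,
            (w[k] = true → 0 ≤ p.2 (k + 1)) ∧ (w[k] = false → p.2 (k + 1) ≤ 0)} =
            {p | p.2 (k + 1) ≤ 0} := by
          ext p
          simp only [Set.mem_ofPred_eq]
          constructor
          · intro h
            exact (h hk).2 hw
          · intro h hk'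
            refine ⟨fun h' => ?_, fun _ => h⟩
            rw [hw] at h'
            exact absurd h' (by decide)
        rw [this]
        exact isClosed_le (hz _) continuous_const
    · have : {p : (ℝ × ℝ) × (ℕ → ℝ) | ∀ hk : k < w.length,
          (w[k] = true → 0 ≤ p.2 (k + 1)) ∧ (w[k] = false → p.2 (k + 1) ≤ 0)} = Set.univ := by
        ext p
        simp only [Set.mem_ofPred_eq, Set.mem_univ, iff_true]
        intro hk'
        exact absurd hk' hk
      rw [this]
      exact isClosed_univ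
  · have hc := chi_cont (X := (ℝ × ℝ) × (ℕ → ℝ)) (b := fun p => p.1.2)
      (c := fun p k => 2 * p.2 k) hb (fun k => continuous_const.mul (hz k)) w.length
    exact isClosed_le hc.abs continuous_const

theorem meas_TT (r : ℝ) (w : List Bool) : MeasurableSet {q : ℝ × ℝ | q.1 ∈ TT q.2 r w} := by
  by_cases hr : 0 < r ∧ r ≤ 1 / 10 ^ 7
  swap
  · have key : {q : ℝ × ℝ | q.1 ∈ TT q.2 r w} = ∅ := by
      ext q
      simp only [Set.mem_ofPred_eq, Set.mem_empty_iff_false, iff_false]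
      rintro ⟨z, ht, -⟩
      exact hr ⟨ht.par.r0, ht.par.r1⟩
    rw [key]
    exact MeasurableSet.empty
  have key : {q : ℝ × ℝ | q.1 ∈ TT q.2 r w} = ⋃ m : ℕ, ((Prod.fst '' (SR r w ∩
      ((Set.Icc (-(m : ℝ)) m ×ˢ Set.Icc (0 : ℝ) m) ×ˢ
        Set.univ.pi (fun _ : ℕ => Set.Icc (-((m : ℝ) + 2)) ((m : ℝ) + 2))))) ∩
        {q : ℝ × ℝ | 0 < q.2}) := by
    ext q
    simp only [Set.mem_iUnion, Set.mem_inter_iff, Set.mem_image, Set.mem_ofPred_eq]
    constructor
    · rintro ⟨z, ht, hs, hc⟩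
      obtain ⟨m, hm⟩ := exists_nat_ge (max |q.1| q.2)
      have hm1 : |q.1| ≤ m := le_trans (le_max_left _ _) hm
      have hm2 : q.2 ≤ m := le_trans (le_max_right _ _) hm
      have hq := ht.par.b0
      refine ⟨m, ⟨(q, z), ⟨⟨⟨ht.par.ha, ht.par.b1⟩, ⟨ht.orb, ht.small⟩, hs, hc⟩, ?_⟩, rfl⟩, hq⟩
      refine ⟨⟨abs_le.mp hm1, ⟨hq.le, hm2⟩⟩, ?_⟩
      intro k _
      exact abs_le.mp (orb_bound ht.orb hm1 hq.le hm2 k)
    · rintro ⟨m, ⟨⟨q', z⟩, ⟨⟨⟨h1, h2⟩, ⟨ho, h3⟩, hs, hc⟩, _⟩, rfl⟩, hq⟩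
      exact ⟨z, ⟨⟨hr.1, hr.2, h1, hq, h2⟩, ho, h3⟩, hs, hc⟩
  rw [key]
  refine MeasurableSet.iUnion fun m => MeasurableSet.inter ?_ ?_
  · apply IsClosed.measurableSet
    apply IsCompact.isClosed
    apply IsCompact.image _ continuous_fst
    apply IsCompact.inter_left _ (SR_closed r w)
    exact (isCompact_Icc.prod isCompact_Icc).prod (isCompact_univ_pi fun _ => isCompact_Icc)
  · exact (isOpen_lt continuous_const continuous_snd).measurableSet

theorem meas_TT_inf (r : ℝ) : MeasurableSet {q : ℝ × ℝ | {w | q.1 ∈ TT q.2 r w}.Infinite} := by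
  have key : {q : ℝ × ℝ | {w | q.1 ∈ TT q.2 r w}.Infinite} =
      ⋂ n : ℕ, ⋃ w : List Bool, ⋃ _ : n ≤ w.length, {q : ℝ × ℝ | q.1 ∈ TT q.2 r w} := by
    ext q
    simp only [Set.mem_ofPred_eq, Set.mem_iInter, Set.mem_iUnion]
    constructor
    · intro hinf n
      by_contra hcon
      apply hinf
      apply (List.finite_length_lt Bool n).subset
      intro w hw
      by_contra hlen
      exact hcon ⟨w, not_lt.mp hlen, hw⟩
    · intro h hfin
      obtain ⟨N, hN⟩ := (hfin.image List.length).bddAbove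
      obtain ⟨w, hw, hq⟩ := h (N + 1)
      have := hN ⟨w, hq, rfl⟩
      omega
  rw [key]
  exact MeasurableSet.iInter fun n => MeasurableSet.iUnion fun w =>
    MeasurableSet.iUnion fun _ => meas_TT r w

end Pool.Agent.helper23.HT
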